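import Pool.Agent.Cohn2.Defs

/-!
# Sums of the local symbol
-/

set_option autoImplicit false

namespace Pool.Agent.Cohn2

open Finset

lemma sum_range_blocks {α : Type*} [AddCommMonoid α] (p m : ℕ) (f : ℕ → α) :
    ∑ a ∈ range (p * m), f a = ∑ i ∈ range m, ∑ j ∈ range p, f (p * i + j) := by
  induction m with
  | zero => simp
  | succ m ih =>
    rw [Nat.mul_succ, sum_range_add, ih, sum_range_succ]

lemma sum_range_zmod {α : Type*} [AddCommMonoid α] (p : ℕ) [NeZero p] (F : ZMod p → α) :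
    ∑ j ∈ range p, F (j : ZMod p) = ∑ x, F x := by
  refine sum_bij (fun j _ => (j : ZMod p)) (fun _ _ => mem_univ _) ?_ ?_ (fun _ _ => rfl)
  · intro a ha b hb h
    have h1 := congrArg ZMod.val h
    simp only [ZMod.val_natCast] at h1
    rwa [Nat.mod_eq_of_lt (mem_range.mp ha), Nat.mod_eq_of_lt (mem_range.mp hb)] at h1
  · intro x _
    exact ⟨x.val, mem_range.mpr (ZMod.val_lt x), ZMod.natCast_zmod_val x⟩

section prime

variable {p : ℕ} [hp : Fact p.Prime]

lemma jac_eq (a : ℤ) : jacobiSym a p = quadraticChar (ZMod p) (a : ZMod p) := by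
  rw [← jacobiSym.legendreSym.to_jacobiSym, legendreSym]

lemma jac_one_ne {a : ℤ} (h : jacobiSym a p = 1) : (a : ZMod p) ≠ 0 := by
  intro h0
  rw [jac_eq, h0, quadraticChar_zero] at h
  exact zero_ne_one h

/-- expansion of the Fermat quotient -/
lemma fq_add (j i : ℕ) (hj : ((j : ℤ) : ZMod p) ≠ 0) :
    ((fq p (p * i + j) : ℤ) : ZMod p) =
      (fq p j : ZMod p) - ((j : ℤ) : ZMod p) ^ (p - 2) * (i : ZMod p) := by
  have hp2 : 2 ≤ p := hp.out.two_le
  have hp0 : (p : ℤ) ≠ 0 := by exact_mod_cast hp.out.ne_zero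
  obtain ⟨r, hr⟩ := Polynomial.powAddExpansion (j : ℤ) (p * i) (p - 1)
  have hd : (p : ℤ) ∣ (j : ℤ) ^ (p - 1) - 1 := by
    rw [← ZMod.intCast_zmod_eq_zero_iff_dvd]
    push_cast
    have := ZMod.pow_card_sub_one_eq_one hj
    push_cast at this
    rw [this, sub_self]
  obtain ⟨c, hc⟩ := hd
  have h1 : fq p j = c := by
    unfold fq
    rw [hc, Int.mul_ediv_cancel_left _ hp0]
  have h2 : fq p (p * i + j) = c + ((p - 1 : ℕ) : ℤ) * (j : ℤ) ^ (p - 1 - 1) * i +
      p * (r * i ^ 2) := by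
    unfold fq
    have h3 : (((p * i + j : ℕ) : ℤ)) ^ (p - 1) - 1 = p * (c +
        ((p - 1 : ℕ) : ℤ) * (j : ℤ) ^ (p - 1 - 1) * i + p * (r * i ^ 2)) := by
      have h4 : (((p * i + j : ℕ) : ℤ)) = (j : ℤ) + p * i := by push_cast; ring
      rw [h4, hr]
      linear_combination hc
    rw [h3, Int.mul_ediv_cancel_left _ hp0]
  rw [h2, h1]
  have h5 : ((p - 1 : ℕ) : ZMod p) = -1 := by
    rw [Nat.cast_sub (by omega)]
    simp
  have h6 : p - 1 - 1 = p - 2 := by omega
  push_cast
  rw [h6, h5]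
  simp
  ring

/-- the values of the Fermat quotient on the lifts of a unit -/
lemma sum_fq (j : ℕ) (hj : ((j : ℤ) : ZMod p) ≠ 0) (G : ZMod p → ℤ) :
    ∑ i ∈ range p, G ((fq p (p * i + j) : ℤ) : ZMod p) = ∑ x, G x := by
  have h1 : ∑ i ∈ range p, G ((fq p (p * i + j) : ℤ) : ZMod p) =
      ∑ i ∈ range p, G ((fq p j : ZMod p) - ((j : ℤ) : ZMod p) ^ (p - 2) * (i : ZMod p)) :=
    sum_congr rfl fun i _ => by rw [fq_add j i hj]
  rw [h1, sum_range_zmod p fun x => G ((fq p j : ZMod p) - ((j : ℤ) : ZMod p) ^ (p - 2) * x)]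
  have hu : ((j : ℤ) : ZMod p) ^ (p - 2) ≠ 0 := pow_ne_zero _ hj
  let e : ZMod p ≃ ZMod p := (Equiv.mulLeft₀ _ hu).trans (Equiv.subLeft (fq p j : ZMod p))
  exact Equiv.sum_comp e G

lemma fq_zero_mod (j i n : ℕ) :
    (p : ℤ) ∣ (((p * i + j : ℕ) : ℤ)) ^ n - 1 ↔ (p : ℤ) ∣ (j : ℤ) ^ n - 1 := by
  rw [← ZMod.intCast_zmod_eq_zero_iff_dvd, ← ZMod.intCast_zmod_eq_zero_iff_dvd]
  push_cast
  simp

lemma jac_block (j i : ℕ) : jacobiSym ((p * i + j : ℕ) : ℤ) p = jacobiSym (j : ℤ) p := by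
  rw [jac_eq, jac_eq]
  push_cast
  simp

lemma al_block (n j i : ℕ) : al p n (p * i + j) = al p n j := by
  unfold al
  rw [jac_block, jac_eq (((p * i + j : ℕ) : ℤ) ^ n - 1), jac_eq ((j : ℤ) ^ n - 1)]
  push_cast
  simp

variable (hp3 : p % 4 = 3)
include hp3

lemma char_ne : ringChar (ZMod p) ≠ 2 := by
  rw [ZMod.ringChar_zmod_n]
  omega

lemma chi_neg_one : quadraticChar (ZMod p) (-1) = -1 := by
  rw [quadraticChar_neg_one (char_ne hp3), ZMod.card]
  exact ZMod.χ₄_nat_three_mod_four hp3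

/-- the sum of `al` over residues vanishes -/
lemma sum_al (n : ℕ) : ∑ j ∈ range p, al p n j = 0 := by
  let F : ZMod p → ℤ := fun x =>
      if quadraticChar (ZMod p) x = 1 then quadraticChar (ZMod p) (x ^ n - 1) else 0
  have hF : F = fun x =>
      if quadraticChar (ZMod p) x = 1 then quadraticChar (ZMod p) (x ^ n - 1) else 0 := rfl
  have h1 : ∑ j ∈ range p, al p n j = ∑ j ∈ range p, F (j : ZMod p) := by
    refine sum_congr rfl fun j _ => ?_
    unfold al
    rw [jac_eq, jac_eq]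
    push_cast
    rfl
  rw [h1, sum_range_zmod p F]
  have h2 : ∑ x, F x = ∑ x, F x⁻¹ := (Equiv.sum_comp (Equiv.inv (ZMod p)) F).symm
  have h3 : ∀ x, F x⁻¹ = - F x := by
    intro x
    have h4 : quadraticChar (ZMod p) x⁻¹ = quadraticChar (ZMod p) x := by
      rcases eq_or_ne x 0 with rfl | hx
      · simp
      have h5 : quadraticChar (ZMod p) x⁻¹ * quadraticChar (ZMod p) x = 1 := by
        rw [← map_mul, inv_mul_cancel₀ hx, map_one]
      have h6 := quadraticChar_sq_one hx
      calc quadraticChar (ZMod p) x⁻¹ = quadraticChar (ZMod p) x⁻¹ *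
            (quadraticChar (ZMod p) x ^ 2) := by rw [h6, mul_one]
        _ = quadraticChar (ZMod p) x := by rw [sq, ← mul_assoc, h5, one_mul]
    simp only [hF, h4]
    split_ifs with h7
    · have hx : x ≠ 0 := by
        rintro rfl
        simp at h7
      have h8 : x⁻¹ ^ n - 1 = (-1) * (x⁻¹ ^ n * (x ^ n - 1)) := by
        rw [inv_pow]
        field_simp
        ring
      rw [h8, map_mul, map_mul, map_pow, h4, h7, one_pow, one_mul, chi_neg_one hp3]
      ring
    · simp
  rw [sum_congr rfl fun x _ => h3 x, sum_neg_distrib] at h2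
  omega

/-- the sum of `al` over a full period vanishes -/
lemma sum_al' (n : ℕ) : ∑ a ∈ range (p * p), al p n a = 0 := by
  rw [sum_range_blocks, sum_congr rfl fun i _ => sum_congr rfl fun j _ => al_block n j i]
  rw [sum_congr rfl fun i _ => sum_al hp3 n]
  simp

/-- the sum of `be` over a full period vanishes -/
lemma sum_be' (n : ℕ) : ∑ a ∈ range (p * p), be p n a = 0 := by
  rw [sum_range_blocks, sum_comm]
  refine sum_eq_zero fun j _ => ?_
  unfold be
  by_cases h : jacobiSym (j : ℤ) p = 1 ∧ (p : ℤ) ∣ (j : ℤ) ^ n - 1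
  · have h1 : ∀ i ∈ range p, (if jacobiSym ((p * i + j : ℕ) : ℤ) p = 1 ∧
        (p : ℤ) ∣ (((p * i + j : ℕ) : ℤ)) ^ n - 1 then jacobiSym (fq p (p * i + j)) p else 0) =
        quadraticChar (ZMod p) ((fq p (p * i + j) : ℤ) : ZMod p) := by
      intro i _
      rw [if_pos ⟨by rw [jac_block]; exact h.1, (fq_zero_mod j i n).mpr h.2⟩, jac_eq]
    rw [sum_congr rfl h1, sum_fq j (jac_one_ne h.1)]
    exact quadraticChar_sum_zero (char_ne hp3)
  · refine sum_eq_zero fun i _ => if_neg ?_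
    rw [jac_block, fq_zero_mod]
    exact h

/-- number of quadratic residues -/
lemma card_qr : 2 * ∑ j ∈ range p, (if jacobiSym (j : ℤ) p = 1 then (1 : ℤ) else 0) = p - 1 := by
  have h1 : ∑ j ∈ range p, (if jacobiSym (j : ℤ) p = 1 then (1 : ℤ) else 0) =
      ∑ x : ZMod p, (if quadraticChar (ZMod p) x = 1 then (1 : ℤ) else 0) := by
    rw [← sum_range_zmod p fun x : ZMod p => if quadraticChar (ZMod p) x = 1 then (1 : ℤ) else 0]
    refine sum_congr rfl fun j _ => ?_
    rw [jac_eq]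
    push_cast
    rfl
  have h2 : ∀ x : ZMod p, 2 * (if quadraticChar (ZMod p) x = 1 then (1 : ℤ) else 0) =
      (1 - (if x = 0 then (1 : ℤ) else 0)) + quadraticChar (ZMod p) x := by
    intro x
    by_cases hx : x = 0
    · subst hx
      simp
    · rw [if_neg hx]
      rcases quadraticChar_dichotomy hx with h | h <;> rw [h] <;> norm_num
  rw [h1, mul_sum, sum_congr rfl fun x _ => h2 x, sum_add_distrib, sum_sub_distrib,
    quadraticChar_sum_zero (char_ne hp3)]
  simp [ZMod.card]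

omit hp3 in
lemma sum_chi_sq : ∑ x : ZMod p, (quadraticChar (ZMod p) x) ^ 2 = p - 1 := by
  have h2 : ∀ x : ZMod p, (quadraticChar (ZMod p) x) ^ 2 = 1 - (if x = 0 then (1 : ℤ) else 0) := by
    intro x
    by_cases hx : x = 0
    · subst hx
      simp
    · rw [if_neg hx, quadraticChar_sq_one hx]
      norm_num
  rw [sum_congr rfl fun x _ => h2 x, sum_sub_distrib]
  simp [ZMod.card]

/-- size of the support -/
lemma support (n : ℕ) :
    ((p : ℤ) - 1) ^ 2 ≤ 2 * ∑ a ∈ range (p * p), (al p n a ^ 2 + be p n a ^ 2) := by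
  have h1 : ∀ j ∈ range p, ((p : ℤ) - 1) * (if jacobiSym (j : ℤ) p = 1 then (1 : ℤ) else 0) ≤
      ∑ i ∈ range p, (al p n (p * i + j) ^ 2 + be p n (p * i + j) ^ 2) := by
    intro j _
    split_ifs with hj
    · rw [mul_one]
      by_cases hd : (p : ℤ) ∣ (j : ℤ) ^ n - 1
      · have h2 : ∀ i ∈ range p, (fun x : ZMod p => (quadraticChar (ZMod p) x) ^ 2)
            ((fq p (p * i + j) : ℤ) : ZMod p) ≤
            al p n (p * i + j) ^ 2 + be p n (p * i + j) ^ 2 := by
          intro i _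
          have h3 : be p n (p * i + j) = quadraticChar (ZMod p) ((fq p (p * i + j) : ℤ) : ZMod p) := by
            unfold be
            rw [if_pos ⟨by rw [jac_block]; exact hj, (fq_zero_mod j i n).mpr hd⟩, jac_eq]
          rw [h3]
          have := sq_nonneg (al p n (p * i + j))
          show _ ≤ _
          linarith
        refine le_trans (le_of_eq ?_) (sum_le_sum h2)
        rw [sum_fq j (jac_one_ne hj) fun x : ZMod p => (quadraticChar (ZMod p) x) ^ 2,
          sum_chi_sq]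
      · have h2 : ∀ i ∈ range p, (1 : ℤ) ≤ al p n (p * i + j) ^ 2 + be p n (p * i + j) ^ 2 := by
          intro i _
          rw [al_block]
          unfold al
          rw [if_pos hj, jac_eq, quadraticChar_sq_one]
          · have := sq_nonneg (be p n (p * i + j))
            linarith
          · rwa [Ne, ZMod.intCast_zmod_eq_zero_iff_dvd]
        refine le_trans ?_ (sum_le_sum h2)
        simp
    · rw [mul_zero]
      exact sum_nonneg fun i _ => by positivity
  have h2 := sum_le_sum h1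
  rw [← mul_sum, sum_comm (s := range p) (t := range p), ← sum_range_blocks p p
    (fun a => al p n a ^ 2 + be p n a ^ 2)] at h2
  have h3 := card_qr hp3
  have h4 : (1 : ℤ) ≤ p := by exact_mod_cast hp.out.one_lt.le
  nlinarith

end prime

end Pool.Agent.Cohn2
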