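import Mathlib

/-!
# Cohn's equation for almost all pairs: the local symbol

`p` is a prime `≡ 3 mod 4`.  `al p n a` is the quadratic character of `a^n - 1` modulo `p` for quadratic
residues `a`; `be p n a` is the quadratic character of the Fermat quotient of `a` for quadratic residues
`a` with `a^n ≡ 1`.  `Ph p n a b = al a * al b + be a * be b`.  If `(a^n - 1)(b^n - 1)` is a square then
`Ph p n a b ≠ -1`.
-/

set_option autoImplicit false

namespace Pool.Agent.Cohn2

open Finset

/-- Fermat quotient -/
def fq (p a : ℕ) : ℤ := ((a : ℤ) ^ (p - 1) - 1) / p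

/-- quadratic character of `a^n - 1`, for quadratic residues `a` -/
def al (p n a : ℕ) : ℤ := if jacobiSym a p = 1 then jacobiSym ((a : ℤ) ^ n - 1) p else 0

/-- quadratic character of the Fermat quotient, for quadratic residues `a` with `a^n ≡ 1` -/
def be (p n a : ℕ) : ℤ :=
  if jacobiSym a p = 1 ∧ (p : ℤ) ∣ (a : ℤ) ^ n - 1 then jacobiSym (fq p a) p else 0

/-- the local symbol -/
def Ph (p n a b : ℕ) : ℤ := al p n a * al p n b + be p n a * be p n b

end Pool.Agent.Cohn2
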