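import Mathlib

/-!
# A product of second moments over groups of primes
-/

set_option autoImplicit false

namespace Pool.Agent.Cohn2

open Finset

/-- `F` has period `m` in both variables -/
def Per (m : ℕ) (F : ℕ → ℕ → ℝ) : Prop := ∀ a b, F (a % m) (b % m) = F a b

lemma Per.of_dvd {m n : ℕ} {F : ℕ → ℕ → ℝ} (h : Per m F) (hd : m ∣ n) : Per n F := by
  intro a b
  rw [← h (a % n) (b % n), Nat.mod_mod_of_dvd _ hd, Nat.mod_mod_of_dvd _ hd, h]

lemma Per.mul {m : ℕ} {F G : ℕ → ℕ → ℝ} (hF : Per m F) (hG : Per m G) :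
    Per m (fun a b => F a b * G a b) := by
  intro a b
  show F _ _ * G _ _ = _
  rw [hF, hG]

lemma Per.prod {ι : Type*} {m : ℕ} (s : Finset ι) {F : ι → ℕ → ℕ → ℝ} (hF : ∀ i ∈ s, Per m (F i)) :
    Per m (fun a b => ∏ i ∈ s, F i a b) := by
  intro a b
  exact prod_congr rfl fun i hi => hF i hi a b

lemma blocks {α : Type*} [AddCommMonoid α] (p m : ℕ) (f : ℕ → α) :
    ∑ a ∈ range (p * m), f a = ∑ i ∈ range m, ∑ j ∈ range p, f (p * i + j) := by
  induction m with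
  | zero => simp
  | succ m ih => rw [Nat.mul_succ, sum_range_add, ih, sum_range_succ]

/-- Chinese remainder theorem for sums -/
lemma crt_sum {m n : ℕ} (hm : m ≠ 0) (hn : n ≠ 0) (h : m.Coprime n) (f : ℕ → ℕ → ℝ) :
    ∑ a ∈ range (m * n), f (a % m) (a % n) = ∑ i ∈ range m, ∑ j ∈ range n, f i j := by
  rw [← sum_product']
  refine sum_bij' (fun a _ => (a % m, a % n)) (fun x _ => (Nat.chineseRemainder h x.1 x.2 : ℕ))
    ?_ ?_ ?_ ?_ ?_
  · intro a _
    exact mem_product.mpr ⟨mem_range.mpr (Nat.mod_lt _ (Nat.pos_of_ne_zero hm)),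
      mem_range.mpr (Nat.mod_lt _ (Nat.pos_of_ne_zero hn))⟩
  · intro x _
    exact mem_range.mpr (Nat.chineseRemainder_lt_mul h _ _ hm hn)
  · intro a ha
    have h1 := (Nat.chineseRemainder h (a % m) (a % n)).2
    have h2 : (Nat.chineseRemainder h (a % m) (a % n) : ℕ) ≡ a [MOD m * n] := by
      rw [← Nat.modEq_and_modEq_iff_modEq_mul h]
      exact ⟨h1.1.trans (Nat.mod_modEq _ _), h1.2.trans (Nat.mod_modEq _ _)⟩
    exact Nat.ModEq.eq_of_lt_of_lt h2 (Nat.chineseRemainder_lt_mul h _ _ hm hn) (mem_range.mp ha)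
  · rintro ⟨i, j⟩ hx
    rw [mem_product, mem_range, mem_range] at hx
    have h1 := (Nat.chineseRemainder h i j).2
    have h2 : (Nat.chineseRemainder h i j : ℕ) % m = i := Eq.trans h1.1 (Nat.mod_eq_of_lt hx.1)
    have h3 : (Nat.chineseRemainder h i j : ℕ) % n = j := Eq.trans h1.2 (Nat.mod_eq_of_lt hx.2)
    exact Prod.ext h2 h3
  · intro a _
    rfl

/-- the sum over a full period vanishes -/
lemma full_zero {m n : ℕ} (hm : m ≠ 0) (hn : n ≠ 0) (h : m.Coprime n) {g R : ℕ → ℕ → ℝ}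
    (hg : Per m g) (hR : Per n R) (h0 : ∑ a ∈ range m, ∑ b ∈ range m, g a b = 0) :
    ∑ a ∈ range (m * n), ∑ b ∈ range (m * n), g a b * R a b = 0 := by
  have h1 : ∀ a b, g a b * R a b = g (a % m) (b % m) * R (a % n) (b % n) := fun a b => by
    rw [hg, hR]
  have h2 : ∀ a, ∑ b ∈ range (m * n), g a b * R a b =
      ∑ i ∈ range m, ∑ j ∈ range n, g (a % m) i * R (a % n) j := by
    intro a
    rw [sum_congr rfl fun b _ => h1 a b]
    exact crt_sum hm hn h fun i j => g (a % m) i * R (a % n) j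
  rw [sum_congr rfl fun a _ => h2 a,
    crt_sum hm hn h fun x y => ∑ i ∈ range m, ∑ j ∈ range n, g x i * R y j]
  have h3 : ∀ x y, ∑ i ∈ range m, ∑ j ∈ range n, g x i * R y j =
      (∑ i ∈ range m, g x i) * ∑ j ∈ range n, R y j := by
    intro x y
    rw [sum_mul_sum]
  simp only [h3]
  rw [← sum_mul_sum, h0, zero_mul]

/-- a function with zero mean over the period, summed over a box -/
lemma box_bound {Q : ℕ} (hQ : Q ≠ 0) {F : ℕ → ℕ → ℝ} (hF : Per Q F) (hb : ∀ a b, |F a b| ≤ 1)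
    (h0 : ∑ a ∈ range Q, ∑ b ∈ range Q, F a b = 0) (X : ℕ) :
    |∑ a ∈ range X, ∑ b ∈ range X, F a b| ≤ 2 * X * Q := by
  have hX : X = Q * (X / Q) + X % Q := (Nat.div_add_mod X Q).symm
  have hr : X % Q < Q := Nat.mod_lt _ (Nat.pos_of_ne_zero hQ)
  set t := X / Q
  set r := X % Q
  have hper : ∀ i j a b, F (Q * i + a) (Q * j + b) = F a b := by
    intro i j a b
    rw [← hF (Q * i + a), ← hF a b]
    simp
  have h1 : ∑ a ∈ range (Q * t), ∑ b ∈ range (Q * t), F a b = 0 := by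
    rw [blocks]
    refine sum_eq_zero fun i _ => ?_
    have h2 : ∀ a ∈ range Q, ∑ b ∈ range (Q * t), F (Q * i + a) b = ∑ j ∈ range t,
        ∑ b ∈ range Q, F a b := by
      intro a _
      rw [blocks]
      exact sum_congr rfl fun j _ => sum_congr rfl fun b _ => hper i j a b
    rw [sum_congr rfl h2, sum_comm]
    exact sum_eq_zero fun j _ => h0
  have hs : ∀ (s : Finset ℕ) (f : ℕ → ℝ) (c : ℝ), (∀ b ∈ s, |f b| ≤ c) →
      |∑ b ∈ s, f b| ≤ s.card * c := by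
    intro s f c hf
    refine (abs_sum_le_sum_abs _ _).trans ((sum_le_sum hf).trans ?_)
    simp
  have h2 : ∑ a ∈ range X, ∑ b ∈ range X, F a b =
      (∑ a ∈ range (Q * t), ∑ b ∈ range (Q * t), F a b +
        ∑ a ∈ range (Q * t), ∑ b ∈ range r, F a (Q * t + b)) +
        ∑ a ∈ range r, ∑ b ∈ range X, F (Q * t + a) b := by
    conv_lhs => rw [show range X = range (Q * t + r) by rw [← hX]]
    rw [sum_range_add, show Q * t + r = X from hX.symm]
    congr 1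
    rw [← sum_add_distrib]
    refine sum_congr rfl fun a _ => ?_
    conv_lhs => rw [hX]
    rw [sum_range_add]
  rw [h2, h1, zero_add]
  have h3 : |∑ a ∈ range (Q * t), ∑ b ∈ range r, F a (Q * t + b)| ≤ (Q * t : ℕ) * (r * 1) := by
    refine (hs _ _ (r * 1) fun a _ => ?_).trans (by rw [card_range])
    exact (hs _ _ 1 fun b _ => hb _ _).trans (by rw [card_range])
  have h4 : |∑ a ∈ range r, ∑ b ∈ range X, F (Q * t + a) b| ≤ (r : ℕ) * (X * 1) := by
    refine (hs _ _ (X * 1) fun a _ => ?_).trans (by rw [card_range])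
    exact (hs _ _ 1 fun b _ => hb _ _).trans (by rw [card_range])
  refine (abs_add_le _ _).trans ((add_le_add h3 h4).trans ?_)
  have h5 : ((Q * t : ℕ) : ℝ) ≤ X := by
    exact_mod_cast (by omega : Q * t ≤ X)
  have h6 : (r : ℝ) ≤ Q := by exact_mod_cast hr.le
  have h7 : (0 : ℝ) ≤ r := Nat.cast_nonneg r
  have h8 : (0 : ℝ) ≤ X := Nat.cast_nonneg X
  nlinarith [mul_le_mul h5 h6 h7 h8]

section main

variable {k : ℕ} (G : Fin k → Finset ℕ) (g : ℕ → ℕ → ℕ → ℝ) (y : ℕ)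
  (hdisj : ∀ i j, i ≠ j → Disjoint (G i) (G j)) (hpr : ∀ j, ∀ p ∈ G j, p.Prime)
  (hy : ∀ j, ∀ p ∈ G j, p ≤ y)
  (hper : ∀ j, ∀ p ∈ G j, Per (p * p) (g p))
  (hbd : ∀ j, ∀ p ∈ G j, ∀ a b, |g p a b| ≤ 1)
  (hmean : ∀ j, ∀ p ∈ G j, ∑ a ∈ range (p * p), ∑ b ∈ range (p * p), g p a b = 0)

include hbd in
lemma term_bd (φ : Fin k → ℕ × ℕ) (h1 : ∀ j, (φ j).1 ∈ G j) (h2 : ∀ j, (φ j).2 ∈ G j)
    (s : Finset (Fin k)) (a b : ℕ) : |∏ j ∈ s, (g (φ j).1 a b * g (φ j).2 a b)| ≤ 1 := by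
  rw [abs_prod]
  refine prod_le_one (fun j _ => abs_nonneg _) fun j _ => ?_
  rw [abs_mul]
  exact mul_le_one₀ (hbd j _ (h1 j) a b) (abs_nonneg _) (hbd j _ (h2 j) a b)

include hbd in
lemma term_diag (φ : Fin k → ℕ × ℕ) (h1 : ∀ j, (φ j).1 ∈ G j) (h2 : ∀ j, (φ j).2 ∈ G j)
    (X : ℕ) : ∑ a ∈ range X, ∑ b ∈ range X, ∏ j, (g (φ j).1 a b * g (φ j).2 a b) ≤
      (X : ℝ) ^ 2 := by
  have h3 : ∀ a ∈ range X, ∑ b ∈ range X, ∏ j, (g (φ j).1 a b * g (φ j).2 a b) ≤ X := by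
    intro a _
    refine (sum_le_sum fun b _ => (le_abs_self _).trans (term_bd G g hbd φ h1 h2 univ a b)).trans ?_
    simp
  refine (sum_le_sum h3).trans ?_
  simp [sq]

include hdisj hpr hy hper hbd hmean in
lemma term_off (φ : Fin k → ℕ × ℕ) (h1 : ∀ j, (φ j).1 ∈ G j) (h2 : ∀ j, (φ j).2 ∈ G j)
    (hne : ∃ j, (φ j).1 ≠ (φ j).2) (X : ℕ) :
    ∑ a ∈ range X, ∑ b ∈ range X, ∏ j, (g (φ j).1 a b * g (φ j).2 a b) ≤
      2 * X * (y : ℝ) ^ (4 * k) := by
  classical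
  obtain ⟨j0, hj0⟩ := hne
  set p := (φ j0).1 with hp
  set q := (φ j0).2 with hq
  have hpp := hpr j0 p (h1 j0)
  have hqq := hpr j0 q (h2 j0)
  -- the other factor
  let n : ℕ := (q * q) * ∏ j ∈ univ.erase j0, ((φ j).1 * (φ j).1 * ((φ j).2 * (φ j).2))
  let R : ℕ → ℕ → ℝ := fun a b => g q a b *
    ∏ j ∈ univ.erase j0, (g (φ j).1 a b * g (φ j).2 a b)
  have hfac : ∀ a b, ∏ j, (g (φ j).1 a b * g (φ j).2 a b) = g p a b * R a b := by
    intro a b
    rw [← mul_prod_erase univ _ (mem_univ j0)]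
    show g p a b * g q a b * _ = g p a b * (g q a b * _)
    rw [mul_assoc]
  have hRper : Per n R := by
    refine Per.mul ((hper j0 q (h2 j0)).of_dvd (Dvd.intro _ rfl)) ?_
    refine Per.prod _ fun j hj => ?_
    have hd : (φ j).1 * (φ j).1 * ((φ j).2 * (φ j).2) ∣ n :=
      (dvd_prod_of_mem (fun j => (φ j).1 * (φ j).1 * ((φ j).2 * (φ j).2)) hj).trans
        (Dvd.intro_left _ rfl)
    exact Per.mul ((hper j _ (h1 j)).of_dvd ((Dvd.intro _ rfl).trans hd))
      ((hper j _ (h2 j)).of_dvd ((Dvd.intro_left _ rfl).trans hd))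
  have hcop1 : ∀ r : ℕ, r.Prime → r ≠ p → (p * p).Coprime (r * r) := by
    intro r hr hrp
    have h3 : p.Coprime r := (Nat.coprime_primes hpp hr).mpr (Ne.symm hrp)
    exact Nat.Coprime.mul_left (h3.mul_right h3) (h3.mul_right h3)
  have hcop : (p * p).Coprime n := by
    refine Nat.Coprime.mul_right (hcop1 q hqq (Ne.symm hj0)) ?_
    refine Nat.Coprime.prod_right fun j hj => ?_
    have hj' : j ≠ j0 := (mem_erase.mp hj).1
    have h3 : ∀ r ∈ G j, r ≠ p := by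
      rintro r hr rfl
      exact disjoint_left.mp (hdisj j j0 hj') hr (h1 j0)
    exact Nat.Coprime.mul_right (hcop1 _ (hpr j _ (h1 j)) (h3 _ (h1 j)))
      (hcop1 _ (hpr j _ (h2 j)) (h3 _ (h2 j)))
  have hp0 : p * p ≠ 0 := mul_ne_zero hpp.ne_zero hpp.ne_zero
  have hn0 : n ≠ 0 := by
    refine mul_ne_zero (mul_ne_zero hqq.ne_zero hqq.ne_zero) (prod_ne_zero_iff.mpr fun j _ => ?_)
    have h3 := (hpr j _ (h1 j)).ne_zero
    have h4 := (hpr j _ (h2 j)).ne_zero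
    exact mul_ne_zero (mul_ne_zero h3 h3) (mul_ne_zero h4 h4)
  have hsize : ((p * p * n : ℕ) : ℝ) ≤ (y : ℝ) ^ (4 * k) := by
    have h3 : p * p * n ≤ y ^ (4 * k) := by
      have h4 : p * p * n = ∏ j, ((φ j).1 * (φ j).1 * ((φ j).2 * (φ j).2)) := by
        rw [← mul_prod_erase univ _ (mem_univ j0)]
        show p * p * ((q * q) * _) = p * p * (q * q) * _
        ring
      rw [h4]
      refine (prod_le_prod' fun j _ => ?_ : _ ≤ ∏ _j : Fin k, y ^ 4).trans ?_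
      · have h5 := hy j _ (h1 j)
        have h6 := hy j _ (h2 j)
        calc (φ j).1 * (φ j).1 * ((φ j).2 * (φ j).2) ≤ y * y * (y * y) :=
              Nat.mul_le_mul (Nat.mul_le_mul h5 h5) (Nat.mul_le_mul h6 h6)
          _ = y ^ 4 := by ring
      · rw [prod_const, card_univ, Fintype.card_fin, ← pow_mul]
    exact_mod_cast h3
  have hFper : Per (p * p * n) (fun a b => g p a b * R a b) :=
    Per.mul ((hper j0 p (h1 j0)).of_dvd (Dvd.intro _ rfl)) (hRper.of_dvd (Dvd.intro_left _ rfl))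
  have hF1 : ∀ a b, |g p a b * R a b| ≤ 1 := by
    intro a b
    rw [← hfac]
    exact term_bd G g hbd φ h1 h2 univ a b
  have h3 := box_bound (mul_ne_zero hp0 hn0) hFper hF1
    (full_zero hp0 hn0 hcop (hper j0 p (h1 j0)) hRper (hmean j0 p (h1 j0))) X
  have h4 : ∑ a ∈ range X, ∑ b ∈ range X, ∏ j, (g (φ j).1 a b * g (φ j).2 a b) =
      ∑ a ∈ range X, ∑ b ∈ range X, g p a b * R a b :=
    sum_congr rfl fun a _ => sum_congr rfl fun b _ => hfac a b
  rw [h4]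
  refine (le_abs_self _).trans (h3.trans ?_)
  exact mul_le_mul_of_nonneg_left hsize (by positivity)

include hdisj hpr hy hper hbd hmean in
/-- the moment inequality -/
theorem moment (X : ℕ) : ∑ a ∈ range X, ∑ b ∈ range X, ∏ j, (∑ p ∈ G j, g p a b) ^ 2 ≤
    (X : ℝ) ^ 2 * ∏ j, ((G j).card : ℝ) +
      (∏ j, ((G j).card : ℝ)) ^ 2 * (2 * X * (y : ℝ) ^ (4 * k)) := by
  classical
  have h1 : ∀ a b, ∏ j, (∑ p ∈ G j, g p a b) ^ 2 =
      ∑ φ ∈ Fintype.piFinset (fun j => G j ×ˢ G j), ∏ j, (g (φ j).1 a b * g (φ j).2 a b) := by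
    intro a b
    have h2 := prod_univ_sum (fun j => G j ×ˢ G j) fun (_ : Fin k) (x : ℕ × ℕ) =>
      g x.1 a b * g x.2 a b
    rw [← h2]
    refine prod_congr rfl fun j _ => ?_
    rw [sq, sum_mul_sum, sum_product]
  have h2 : ∑ a ∈ range X, ∑ b ∈ range X, ∏ j, (∑ p ∈ G j, g p a b) ^ 2 =
      ∑ φ ∈ Fintype.piFinset (fun j => G j ×ˢ G j),
        ∑ a ∈ range X, ∑ b ∈ range X, ∏ j, (g (φ j).1 a b * g (φ j).2 a b) := by
    rw [sum_congr rfl fun a _ => sum_congr rfl fun b _ => h1 a b]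
    rw [sum_congr rfl fun a _ => sum_comm, sum_comm]
  rw [h2, ← sum_filter_add_sum_filter_not _ (fun φ : Fin k → ℕ × ℕ => ∀ j, (φ j).1 = (φ j).2)]
  have hmem : ∀ φ ∈ Fintype.piFinset (fun j => G j ×ˢ G j),
      (∀ j, (φ j).1 ∈ G j) ∧ ∀ j, (φ j).2 ∈ G j := by
    intro φ hφ
    rw [Fintype.mem_piFinset] at hφ
    exact ⟨fun j => (mem_product.mp (hφ j)).1, fun j => (mem_product.mp (hφ j)).2⟩
  refine add_le_add ?_ ?_
  · refine (sum_le_card_nsmul _ _ ((X : ℝ) ^ 2) fun φ hφ => ?_).trans ?_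
    · have h3 := hmem φ (mem_filter.mp hφ).1
      exact term_diag G g hbd φ h3.1 h3.2 X
    · have h3 : (Fintype.piFinset (fun j => G j ×ˢ G j)).filter
          (fun φ : Fin k → ℕ × ℕ => ∀ j, (φ j).1 = (φ j).2) =
          Fintype.piFinset (fun j => (G j).diag) := by
        ext φ
        simp only [mem_filter, Fintype.mem_piFinset, mem_product, mem_diag]
        constructor
        · rintro ⟨h4, h5⟩ j
          exact ⟨(h4 j).1, h5 j⟩
        · intro h4
          exact ⟨fun j => ⟨(h4 j).1, (h4 j).2 ▸ (h4 j).1⟩, fun j => (h4 j).2⟩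
      rw [h3, Fintype.card_piFinset, nsmul_eq_mul, mul_comm]
      simp [diag_card]
  · refine (sum_le_card_nsmul _ _ (2 * X * (y : ℝ) ^ (4 * k)) fun φ hφ => ?_).trans ?_
    · have h3 := hmem φ (mem_filter.mp hφ).1
      have h4 := (mem_filter.mp hφ).2
      push Not at h4
      exact term_off G g y hdisj hpr hy hper hbd hmean φ h3.1 h3.2 h4 X
    · rw [nsmul_eq_mul]
      refine mul_le_mul_of_nonneg_right ?_ (by positivity)
      have h3 := card_filter_le (Fintype.piFinset (fun j => G j ×ˢ G j))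
        (fun φ : Fin k → ℕ × ℕ => ¬ ∀ j, (φ j).1 = (φ j).2)
      have h4 : (Fintype.piFinset (fun j => G j ×ˢ G j)).card = (∏ j, (G j).card) ^ 2 := by
        rw [Fintype.card_piFinset, ← prod_pow]
        exact prod_congr rfl fun j _ => by rw [card_product, sq]
      rw [h4] at h3
      exact_mod_cast h3

end main

end Pool.Agent.Cohn2
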