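import Pool.Agent.Cohn2.Obs
import Pool.Agent.Cohn2.Moment

/-!
# Number of pairs without a local obstruction
-/

set_option autoImplicit false

namespace Pool.Agent.Cohn2

open Finset

/-- disjoint groups of equal size -/
lemma exists_groups (P : Finset ℕ) (k g : ℕ) (h : k * g ≤ P.card) :
    ∃ G : Fin k → Finset ℕ, (∀ i j, i ≠ j → Disjoint (G i) (G j)) ∧ (∀ j, G j ⊆ P) ∧
      ∀ j, (G j).card = g := by
  classical
  obtain ⟨P', hP', hc⟩ := exists_subset_card_eq h
  let e : Fin k × Fin g ≃ P' := finProdFinEquiv.trans (P'.equivFinOfCardEq hc).symm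
  refine ⟨fun j => univ.image fun i : Fin g => (e (j, i) : ℕ), ?_, ?_, ?_⟩
  · intro i j hij
    rw [disjoint_left]
    intro a ha hb
    obtain ⟨s, -, hs⟩ := mem_image.mp ha
    obtain ⟨t, -, ht⟩ := mem_image.mp hb
    have h1 := e.injective (Subtype.ext (hs.trans ht.symm))
    exact hij (congrArg Prod.fst h1)
  · intro j a ha
    obtain ⟨s, -, hs⟩ := mem_image.mp ha
    rw [← hs]
    exact hP' (e (j, s)).2
  · intro j
    rw [card_image_of_injective, card_univ, Fintype.card_fin]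
    intro s t hst
    have h1 := e.injective (Subtype.ext hst)
    exact congrArg Prod.snd h1

/-- the indicator function of the obstructed pairs -/
noncomputable def ob (p n a b : ℕ) : ℝ := if Ph p n a b = -1 then 1 else 0

/-- its mean -/
noncomputable def mu (p n : ℕ) : ℝ :=
  (∑ a ∈ range (p * p), ∑ b ∈ range (p * p), ob p n a b) / ((p : ℝ) * p) ^ 2

lemma ob_nonneg (p n a b : ℕ) : 0 ≤ ob p n a b := by
  unfold ob
  split_ifs <;> norm_num

lemma ob_le (p n a b : ℕ) : ob p n a b ≤ 1 := by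
  unfold ob
  split_ifs <;> norm_num

lemma mu_nonneg (p n : ℕ) : 0 ≤ mu p n := by
  unfold mu
  exact div_nonneg (sum_nonneg fun a _ => sum_nonneg fun b _ => ob_nonneg p n a b) (by positivity)

lemma mu_le (p n : ℕ) : mu p n ≤ 1 := by
  unfold mu
  refine div_le_one_of_le₀ ?_ (by positivity)
  refine (sum_le_sum fun a _ => sum_le_sum fun b _ => ob_le p n a b).trans ?_
  simp [sq]

lemma mu_ge {p : ℕ} (hp : p.Prime) (hp3 : p % 4 = 3) (n : ℕ) : 1 / 81 ≤ mu p n := by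
  haveI : Fact p.Prime := ⟨hp⟩
  have h1 := card_obs hp3 n
  have h2 : ((p : ℝ) - 1) ^ 4 ≤ 16 * ∑ a ∈ range (p * p), ∑ b ∈ range (p * p), ob p n a b := by
    have h3 : (((((p : ℤ) - 1) ^ 4 : ℤ)) : ℝ) ≤ ((16 * ∑ a ∈ range (p * p),
        ∑ b ∈ range (p * p), (if Ph p n a b = -1 then (1 : ℤ) else 0) : ℤ) : ℝ) := by
      exact_mod_cast h1
    push_cast at h3
    unfold ob
    exact h3
  have h3 : (3 : ℝ) ≤ p := by
    have : 3 ≤ p := by omega
    exact_mod_cast this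
  unfold mu
  rw [le_div_iff₀ (by positivity)]
  have h4 : (2 / 3 * (p : ℝ)) ^ 4 ≤ ((p : ℝ) - 1) ^ 4 :=
    pow_le_pow_left₀ (by positivity) (by linarith) 4
  have h5 : (2 / 3 * (p : ℝ)) ^ 4 = 16 / 81 * (((p : ℝ) * p) ^ 2) := by ring
  linarith

/-- the pairs in the box without an obstruction for the exponent `n` -/
noncomputable def free (P : Finset ℕ) (n X : ℕ) : Finset (ℕ × ℕ) :=
  (range X ×ˢ range X).filter fun x => ∀ p ∈ P, Ph p n x.1 x.2 ≠ -1

/-- bound for one exponent -/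
theorem free_bound (P : Finset ℕ) (k g y n X : ℕ) (hg : 0 < g) (h : k * g ≤ P.card)
    (hP : ∀ p ∈ P, p.Prime ∧ p % 4 = 3 ∧ p ≤ y) :
    ((free P n X).card : ℝ) ≤ (X : ℝ) ^ 2 * (6561 / g) ^ k +
      6561 ^ k * (2 * X * (y : ℝ) ^ (4 * k)) := by
  classical
  obtain ⟨G, hdisj, hGP, hcard⟩ := exists_groups P k g h
  let f : ℕ → ℕ → ℕ → ℝ := fun p a b => ob p n a b - mu p n
  have hper : ∀ j, ∀ p ∈ G j, Per (p * p) (f p) := by
    intro j p hp a b
    haveI : Fact p.Prime := ⟨(hP p (hGP j hp)).1⟩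
    show ob p n _ _ - _ = ob p n a b - _
    unfold ob
    rw [Ph_mod]
  have hbd : ∀ j, ∀ p ∈ G j, ∀ a b, |f p a b| ≤ 1 := by
    intro j p _ a b
    have h1 := ob_nonneg p n a b
    have h2 := ob_le p n a b
    have h3 := mu_nonneg p n
    have h4 := mu_le p n
    show |ob p n a b - mu p n| ≤ 1
    rw [abs_le]
    constructor <;> linarith
  have hmean : ∀ j, ∀ p ∈ G j, ∑ a ∈ range (p * p), ∑ b ∈ range (p * p), f p a b = 0 := by
    intro j p hp
    have hp0 : (p : ℝ) ≠ 0 := by exact_mod_cast (hP p (hGP j hp)).1.ne_zero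
    show ∑ a ∈ range (p * p), ∑ b ∈ range (p * p), (ob p n a b - mu p n) = 0
    simp only [sum_sub_distrib, sum_const, card_range, nsmul_eq_mul]
    unfold mu
    push_cast
    field_simp
    ring
  have hm := moment G f y hdisj (fun j p hp => (hP p (hGP j hp)).1)
    (fun j p hp => (hP p (hGP j hp)).2.2) hper hbd hmean X
  simp only [hcard, prod_const, card_univ, Fintype.card_fin] at hm
  have hg0 : (0 : ℝ) < g := by exact_mod_cast hg
  -- lower bound for the left side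
  have hlow : ((free P n X).card : ℝ) * (((g : ℝ) / 81) ^ 2) ^ k ≤
      ∑ a ∈ range X, ∑ b ∈ range X, ∏ j, (∑ p ∈ G j, f p a b) ^ 2 := by
    have h1 : ∀ x ∈ free P n X, (((g : ℝ) / 81) ^ 2) ^ k ≤
        ∏ j, (∑ p ∈ G j, f p x.1 x.2) ^ 2 := by
      intro x hx
      have h2 : (((g : ℝ) / 81) ^ 2) ^ k = ∏ _j : Fin k, ((g : ℝ) / 81) ^ 2 := by
        rw [prod_const, card_univ, Fintype.card_fin]
      rw [h2]
      refine prod_le_prod (fun j _ => by positivity) fun j _ => ?_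
      have h3 : ∑ p ∈ G j, f p x.1 x.2 = - ∑ p ∈ G j, mu p n := by
        rw [← sum_neg_distrib]
        refine sum_congr rfl fun p hp => ?_
        have h4 := (mem_filter.mp hx).2 p (hGP j hp)
        show ob p n x.1 x.2 - mu p n = - mu p n
        unfold ob
        rw [if_neg h4]
        ring
      have h5 : (g : ℝ) / 81 ≤ ∑ p ∈ G j, mu p n := by
        have h6 : ∑ _p ∈ G j, (1 / 81 : ℝ) ≤ ∑ p ∈ G j, mu p n :=
          sum_le_sum fun p hp => mu_ge (hP p (hGP j hp)).1 (hP p (hGP j hp)).2.1 n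
        rw [sum_const, hcard, nsmul_eq_mul] at h6
        linarith
      rw [h3, neg_sq]
      exact pow_le_pow_left₀ (by positivity) h5 2
    calc ((free P n X).card : ℝ) * (((g : ℝ) / 81) ^ 2) ^ k
        = ∑ _x ∈ free P n X, (((g : ℝ) / 81) ^ 2) ^ k := by rw [sum_const, nsmul_eq_mul]
      _ ≤ ∑ x ∈ free P n X, ∏ j, (∑ p ∈ G j, f p x.1 x.2) ^ 2 := sum_le_sum h1
      _ ≤ ∑ x ∈ range X ×ˢ range X, ∏ j, (∑ p ∈ G j, f p x.1 x.2) ^ 2 :=
          sum_le_sum_of_subset_of_nonneg (filter_subset _ _) fun x _ _ =>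
            prod_nonneg fun j _ => sq_nonneg _
      _ = _ := sum_product _ _ _
  have h2 := hlow.trans hm
  have h3 : (0 : ℝ) < (((g : ℝ) / 81) ^ 2) ^ k := by positivity
  rw [← le_div_iff₀ h3] at h2
  refine h2.trans (le_of_eq ?_)
  have h4 : (((g : ℝ) / 81) ^ 2) ^ k = (g : ℝ) ^ k * (g : ℝ) ^ k / 6561 ^ k := by
    rw [← mul_pow, ← div_pow]
    congr 1
    ring
  rw [h4]
  have h5 : (g : ℝ) ^ k ≠ 0 := by positivity
  rw [div_pow]
  field_simp

/-- the pairs with a solution of Cohn's equation -/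
def IsSol (a b : ℕ) : Prop :=
  2 ≤ a ∧ 2 ≤ b ∧ ∃ n : ℕ, 1 ≤ n ∧ ∃ x : ℤ, ((a : ℤ) ^ n - 1) * ((b : ℤ) ^ n - 1) = x ^ 2

open Classical in
/-- bound for all exponents -/
theorem sol_bound (P : Finset ℕ) (k g y M X : ℕ) (hg : 0 < g) (h : k * g ≤ P.card)
    (hP : ∀ p ∈ P, p.Prime ∧ p % 4 = 3 ∧ p ≤ y) (hM : 0 < M) (hPM : ∀ p ∈ P, p - 1 ∣ M) :
    (((range X ×ˢ range X).filter fun x => IsSol x.1 x.2).card : ℝ) ≤
      M * ((X : ℝ) ^ 2 * (6561 / g) ^ k + 6561 ^ k * (2 * X * (y : ℝ) ^ (4 * k))) := by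
  have h1 : ((range X ×ˢ range X).filter fun x => IsSol x.1 x.2) ⊆
      (range M).biUnion fun n => free P n X := by
    intro x hx
    obtain ⟨hx1, -, -, n, hn, z, hz⟩ := mem_filter.mp hx
    refine mem_biUnion.mpr ⟨n % M, mem_range.mpr (Nat.mod_lt _ hM), ?_⟩
    refine mem_filter.mpr ⟨hx1, fun p hp => ?_⟩
    haveI : Fact p.Prime := ⟨(hP p hp).1⟩
    have h2 := (hP p hp).2.1
    have h3 : n % (p - 1) = (n % M) % (p - 1) := (Nat.mod_mod_of_dvd n (hPM p hp)).symm
    rw [← Ph_exp x.1 x.2 h3]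
    exact obstruction (by omega) (by omega) hz
  have h2 := (card_le_card h1).trans card_biUnion_le
  have h3 : (((range X ×ˢ range X).filter fun x => IsSol x.1 x.2).card : ℝ) ≤
      ∑ n ∈ range M, ((free P n X).card : ℝ) := by exact_mod_cast h2
  refine h3.trans ((sum_le_sum fun n _ => free_bound P k g y n X hg h hP).trans ?_)
  rw [sum_const, card_range, nsmul_eq_mul]

end Pool.Agent.Cohn2
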