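import Pool.Agent.Cohn2.Local

/-!
# The local symbol is an obstruction, periodicity, size
-/

set_option autoImplicit false

namespace Pool.Agent.Cohn2

open Finset

section prime

variable {p : ℕ} [hp : Fact p.Prime]

/-! ## periodicity -/

lemma be_block (n j i i' : ℕ) (hi : i % p = i' % p) :
    be p n (p * i + j) = be p n (p * i' + j) := by
  unfold be
  by_cases h : jacobiSym (j : ℤ) p = 1 ∧ (p : ℤ) ∣ (j : ℤ) ^ n - 1
  · rw [if_pos ⟨by rw [jac_block]; exact h.1, (fq_zero_mod j i n).mpr h.2⟩,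
      if_pos ⟨by rw [jac_block]; exact h.1, (fq_zero_mod j i' n).mpr h.2⟩,
      jac_eq, jac_eq, fq_add j i (jac_one_ne h.1), fq_add j i' (jac_one_ne h.1)]
    have : (i : ZMod p) = (i' : ZMod p) := by
      rw [ZMod.natCast_eq_natCast_iff]
      exact hi
    rw [this]
  · rw [if_neg, if_neg]
    · rw [jac_block, fq_zero_mod]
      exact h
    · rw [jac_block, fq_zero_mod]
      exact h

lemma al_mod (n a : ℕ) : al p n (a % (p * p)) = al p n a := by
  rw [Nat.mod_mul, add_comm, al_block]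
  conv_rhs => rw [← Nat.div_add_mod a p, al_block]

lemma be_mod (n a : ℕ) : be p n (a % (p * p)) = be p n a := by
  rw [Nat.mod_mul, add_comm]
  conv_rhs => rw [← Nat.div_add_mod a p]
  exact be_block n (a % p) _ _ (Nat.mod_mod _ _)

lemma Ph_mod (n a b : ℕ) : Ph p n (a % (p * p)) (b % (p * p)) = Ph p n a b := by
  unfold Ph
  rw [al_mod, al_mod, be_mod, be_mod]

lemma pow_mod_eq {a : ℤ} (ha : (a : ZMod p) ≠ 0) {n n' : ℕ} (h : n % (p - 1) = n' % (p - 1)) :
    (a : ZMod p) ^ n = (a : ZMod p) ^ n' := by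
  rw [← Nat.div_add_mod n (p - 1), ← Nat.div_add_mod n' (p - 1), h, pow_add, pow_add, pow_mul,
    pow_mul, ZMod.pow_card_sub_one_eq_one ha, one_pow, one_pow]

lemma Ph_exp (a b : ℕ) {n n' : ℕ} (h : n % (p - 1) = n' % (p - 1)) :
    Ph p n a b = Ph p n' a b := by
  have h1 : ∀ c : ℕ, al p n c = al p n' c := by
    intro c
    unfold al
    split_ifs with hc
    · rw [jac_eq, jac_eq]
      push_cast
      have := pow_mod_eq (jac_one_ne hc) h
      push_cast at this
      rw [this]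
    · rfl
  have h2 : ∀ c : ℕ, be p n c = be p n' c := by
    intro c
    unfold be
    have h3 : (jacobiSym (c : ℤ) p = 1 ∧ (p : ℤ) ∣ (c : ℤ) ^ n - 1) ↔
        (jacobiSym (c : ℤ) p = 1 ∧ (p : ℤ) ∣ (c : ℤ) ^ n' - 1) := by
      refine and_congr_right fun hc => ?_
      rw [← ZMod.intCast_zmod_eq_zero_iff_dvd, ← ZMod.intCast_zmod_eq_zero_iff_dvd]
      push_cast
      have := pow_mod_eq (jac_one_ne hc) h
      push_cast at this
      rw [this]
    rw [if_congr h3 rfl rfl]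
  unfold Ph
  rw [h1, h1, h2, h2]

/-! ## values -/

lemma al_be (n a : ℕ) : al p n a * be p n a = 0 := by
  unfold al be
  by_cases h : (p : ℤ) ∣ (a : ℤ) ^ n - 1
  · have h1 : jacobiSym ((a : ℤ) ^ n - 1) p = 0 := by
      rw [jac_eq, (ZMod.intCast_zmod_eq_zero_iff_dvd _ _).mpr h, quadraticChar_zero]
    rw [h1]
    simp
  · rw [if_neg (c := jacobiSym (a : ℤ) p = 1 ∧ (p : ℤ) ∣ (a : ℤ) ^ n - 1) (fun h2 => h h2.2),
      mul_zero]

omit hp in
lemma tri_al (n a : ℕ) : al p n a = 0 ∨ al p n a = 1 ∨ al p n a = -1 := by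
  unfold al
  split_ifs
  · exact jacobiSym.trichotomy _ _
  · exact Or.inl rfl

omit hp in
lemma tri_be (n a : ℕ) : be p n a = 0 ∨ be p n a = 1 ∨ be p n a = -1 := by
  unfold be
  split_ifs
  · exact jacobiSym.trichotomy _ _
  · exact Or.inl rfl

lemma Ph_val (n a b : ℕ) : 2 * (if Ph p n a b = -1 then (1 : ℤ) else 0) =
    (al p n a ^ 2 * al p n b ^ 2 + be p n a ^ 2 * be p n b ^ 2) -
      (al p n a * al p n b + be p n a * be p n b) := by
  have ha := al_be (p := p) n a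
  have hb := al_be (p := p) n b
  unfold Ph
  rcases tri_al (p := p) n a with h1 | h1 | h1 <;> rcases tri_be (p := p) n a with h2 | h2 | h2 <;>
    rcases tri_al (p := p) n b with h3 | h3 | h3 <;> rcases tri_be (p := p) n b with h4 | h4 | h4 <;>
    rw [h1, h2] at ha <;> rw [h3, h4] at hb <;> rw [h1, h2, h3, h4] <;>
    first
      | (norm_num at ha; done)
      | (norm_num at hb; done)
      | norm_num

/-- the obstructed pairs have positive density -/
theorem card_obs (hp3 : p % 4 = 3) (n : ℕ) : ((p : ℤ) - 1) ^ 4 ≤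
    16 * ∑ a ∈ range (p * p), ∑ b ∈ range (p * p), (if Ph p n a b = -1 then (1 : ℤ) else 0) := by
  have h1 : 2 * ∑ a ∈ range (p * p), ∑ b ∈ range (p * p),
      (if Ph p n a b = -1 then (1 : ℤ) else 0) =
      (∑ a ∈ range (p * p), al p n a ^ 2) ^ 2 + (∑ a ∈ range (p * p), be p n a ^ 2) ^ 2 := by
    have h2 : 2 * ∑ a ∈ range (p * p), ∑ b ∈ range (p * p),
        (if Ph p n a b = -1 then (1 : ℤ) else 0) =
        ∑ a ∈ range (p * p), ∑ b ∈ range (p * p),
          ((al p n a ^ 2 * al p n b ^ 2 + be p n a ^ 2 * be p n b ^ 2) -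
            (al p n a * al p n b + be p n a * be p n b)) := by
      rw [mul_sum]
      refine sum_congr rfl fun a _ => ?_
      rw [mul_sum]
      exact sum_congr rfl fun b _ => Ph_val n a b
    rw [h2]
    simp only [sum_sub_distrib, sum_add_distrib, ← mul_sum, ← sum_mul]
    rw [sum_al' hp3, sum_be' hp3]
    ring
  have h2 := support hp3 n
  rw [sum_add_distrib] at h2
  have h3 : (0 : ℤ) ≤ (p : ℤ) - 1 := by
    have : (1 : ℤ) ≤ p := by exact_mod_cast hp.out.one_lt.le
    linarith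
  set A := ∑ a ∈ range (p * p), al p n a ^ 2
  set B := ∑ a ∈ range (p * p), be p n a ^ 2
  have h4 : ((p : ℤ) - 1) ^ 4 ≤ (2 * (A + B)) ^ 2 := by
    calc ((p : ℤ) - 1) ^ 4 = (((p : ℤ) - 1) ^ 2) ^ 2 := by ring
      _ ≤ _ := pow_le_pow_left₀ (by positivity) h2 2
  nlinarith [sq_nonneg (A - B)]

/-! ## the obstruction -/

lemma pow_prime_step (hp2 : p ≠ 2) (y : ℤ) (hy : (p : ℤ) ∣ y) :
    ∃ c : ℤ, (1 + y) ^ p = 1 + p * y * (1 + p * c) := by
  obtain ⟨z, hz⟩ := hy
  have h0 : ∀ i : ℕ, ∃ k : ℤ, (1 + y) ^ i = 1 + i * y + k * y ^ 2 := by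
    intro i
    obtain ⟨k, hk⟩ := Polynomial.powAddExpansion (1 : ℤ) y i
    exact ⟨k, by rw [hk]; simp⟩
  choose k hk using h0
  obtain ⟨t, ht⟩ := hp.out.odd_of_ne_two hp2
  have h1 : (∑ i ∈ range p, (i : ℤ)) = p * t := by
    have h2 := sum_range_id_mul_two p
    have h3 : ((∑ i ∈ range p, i : ℕ) : ℤ) * 2 = p * (p - 1 : ℕ) := by exact_mod_cast h2
    have h4 : ((p - 1 : ℕ) : ℤ) = 2 * t := by
      have : p - 1 = 2 * t := by omega
      rw [this]
      push_cast
      ring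
    rw [h4] at h3
    push_cast at h3
    linarith
  have h2 := geom_sum_mul (1 + y) p
  rw [sum_congr rfl fun i _ => hk i, sum_add_distrib, sum_add_distrib, ← sum_mul, ← sum_mul, h1] at h2
  simp only [sum_const, card_range, nsmul_eq_mul, mul_one] at h2
  refine ⟨t * z + (∑ i ∈ range p, k i) * z ^ 2, ?_⟩
  have h3 : (1 + y) ^ p = 1 + (p + p * t * y + (∑ i ∈ range p, k i) * y ^ 2) * y := by
    linear_combination -h2
  rw [h3, hz]
  ring

lemma pow_unit (hp2 : p ≠ 2) (u : ℤ) (m s : ℕ) :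
    ∃ w : ℤ, (1 + p * u) ^ (p ^ s * m) = 1 + p ^ (s + 1) * w ∧ (p : ℤ) ∣ w - m * u := by
  induction s with
  | zero =>
    obtain ⟨k, hk⟩ := Polynomial.powAddExpansion (1 : ℤ) (p * u) m
    refine ⟨m * u + k * (p * u ^ 2), ?_, ⟨k * u ^ 2, by ring⟩⟩
    rw [pow_zero, one_mul, hk]
    simp only [one_pow]
    ring
  | succ s ih =>
    obtain ⟨w, hw, hd⟩ := ih
    obtain ⟨c, hc⟩ := pow_prime_step hp2 (p ^ (s + 1) * w) ⟨p ^ s * w, by ring⟩
    refine ⟨w * (1 + p * c), ?_, ?_⟩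
    · have h1 : p ^ (s + 1) * m = p ^ s * m * p := by ring
      rw [h1, pow_mul, hw, hc]
      ring
    · obtain ⟨d, hd⟩ := hd
      exact ⟨d + w * c, by linear_combination hd⟩

/-- the unit part of `a^n - 1` -/
lemma unit_part (hp2 : p ≠ 2) {a : ℕ} (ha : ((a : ℤ) : ZMod p) ≠ 0) {m s : ℕ}
    (hd : (p : ℤ) ∣ (a : ℤ) ^ (p ^ s * m) - 1) :
    ∃ w σ : ℤ, ((a : ℤ) ^ (p ^ s * m) - 1) * σ = p ^ (s + 1) * w ∧ (p : ℤ) ∣ σ + 1 ∧
      (p : ℤ) ∣ w - m * fq p a := by
  have hp0 : (p : ℤ) ≠ 0 := by exact_mod_cast hp.out.ne_zero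
  have h1 : (a : ℤ) ^ (p - 1) = 1 + p * fq p a := by
    have hd : (p : ℤ) ∣ (a : ℤ) ^ (p - 1) - 1 := by
      rw [← ZMod.intCast_zmod_eq_zero_iff_dvd]
      push_cast
      have := ZMod.pow_card_sub_one_eq_one ha
      push_cast at this
      rw [this, sub_self]
    unfold fq
    rw [Int.mul_ediv_cancel' hd]
    ring
  obtain ⟨w, hw, hwd⟩ := pow_unit hp2 (fq p a) m s
  refine ⟨w, ∑ i ∈ range (p - 1), ((a : ℤ) ^ (p ^ s * m)) ^ i, ?_, ?_, hwd⟩
  · rw [mul_comm, geom_sum_mul, ← pow_mul, mul_comm (p ^ s * m), pow_mul, h1, hw]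
    ring
  · rw [← ZMod.intCast_zmod_eq_zero_iff_dvd] at hd ⊢
    push_cast at hd ⊢
    have h2 : ((a : ZMod p)) ^ (p ^ s * m) = 1 := by linear_combination hd
    rw [h2]
    simp only [one_pow, sum_const, card_range, nsmul_eq_mul, mul_one]
    rw [Nat.cast_sub hp.out.one_lt.le]
    simp

/-- **the obstruction**: if `(a^n - 1)(b^n - 1)` is a square then the symbol is not `-1` -/
theorem obstruction (hp2 : p ≠ 2) {a b n : ℕ} (hn : n ≠ 0) {x : ℤ}
    (hx : ((a : ℤ) ^ n - 1) * ((b : ℤ) ^ n - 1) = x ^ 2) : Ph p n a b ≠ -1 := by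
  intro hPh
  have hp0 : (p : ℤ) ≠ 0 := by exact_mod_cast hp.out.ne_zero
  have key : al p n a * al p n b = -1 ∨ be p n a * be p n b = -1 := by
    have ha := al_be (p := p) n a
    unfold Ph at hPh
    rcases mul_eq_zero.mp ha with h | h
    · right
      rw [h] at hPh
      linarith
    · left
      rw [h] at hPh
      linarith
  rcases key with h | h
  · have ha : al p n a = jacobiSym ((a : ℤ) ^ n - 1) p := by
      unfold al at h ⊢
      split_ifs at h ⊢ with h1 h2
      · rfl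
      · rfl
      · simp at h
      · simp at h
    have hb : al p n b = jacobiSym ((b : ℤ) ^ n - 1) p := by
      by_contra hcon
      unfold al at h hcon
      split_ifs at h hcon
      all_goals first
        | exact hcon rfl
        | simp at h
    rw [ha, hb, ← jacobiSym.mul_left, hx, jacobiSym.pow_left] at h
    nlinarith [sq_nonneg (jacobiSym x p)]
  · have ha : (jacobiSym (a : ℤ) p = 1 ∧ (p : ℤ) ∣ (a : ℤ) ^ n - 1) ∧
        be p n a = jacobiSym (fq p a) p := by
      by_cases h1 : jacobiSym (a : ℤ) p = 1 ∧ (p : ℤ) ∣ (a : ℤ) ^ n - 1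
      · exact ⟨h1, if_pos h1⟩
      · have : be p n a = 0 := if_neg h1
        rw [this] at h
        simp at h
    have hb : (jacobiSym (b : ℤ) p = 1 ∧ (p : ℤ) ∣ (b : ℤ) ^ n - 1) ∧
        be p n b = jacobiSym (fq p b) p := by
      by_cases h1 : jacobiSym (b : ℤ) p = 1 ∧ (p : ℤ) ∣ (b : ℤ) ^ n - 1
      · exact ⟨h1, if_pos h1⟩
      · have : be p n b = 0 := if_neg h1
        rw [this] at h
        simp at h
    obtain ⟨s, m, hm, hnm⟩ := Nat.exists_eq_pow_mul_and_not_dvd hn p hp.out.ne_one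
    rw [hnm] at hx
    obtain ⟨wa, sa, ha1, ha2, ha3⟩ := unit_part hp2 (jac_one_ne ha.1.1) (hnm ▸ ha.1.2)
    obtain ⟨wb, sb, hb1, hb2, hb3⟩ := unit_part hp2 (jac_one_ne hb.1.1) (hnm ▸ hb.1.2)
    have h1 : x ^ 2 * (sa * sb) = (p ^ (s + 1)) ^ 2 * (wa * wb) := by
      rw [← hx]
      linear_combination ((b : ℤ) ^ (p ^ s * m) - 1) * sb * ha1 + p ^ (s + 1) * wa * hb1
    have hss : jacobiSym (sa * sb) p = 1 := by
      have h2 : ((sa * sb : ℤ) : ZMod p) = 1 := by
        rw [← ZMod.intCast_zmod_eq_zero_iff_dvd] at ha2 hb2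
        push_cast at ha2 hb2 ⊢
        have h3 : (sa : ZMod p) = -1 := by linear_combination ha2
        have h4 : (sb : ZMod p) = -1 := by linear_combination hb2
        rw [h3, h4]
        ring
      rw [jac_eq, h2, map_one]
    have hcop : IsCoprime (((p : ℤ) ^ (s + 1)) ^ 2) (sa * sb) := by
      have h3 : IsCoprime (p : ℤ) (sa * sb) := by
        rw [Int.isCoprime_iff_gcd_eq_one]
        by_contra hne
        have h4 : jacobiSym (sa * sb) p = 0 := by
          rw [jacobiSym.eq_zero_iff]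
          exact ⟨hp.out.ne_zero, by rw [Int.gcd_comm]; exact hne⟩
        rw [hss] at h4
        exact one_ne_zero h4
      exact (h3.pow_left).pow_left
    have h2 : ((p : ℤ) ^ (s + 1)) ^ 2 ∣ x ^ 2 := by
      refine hcop.dvd_of_dvd_mul_right ?_
      rw [h1]
      exact Dvd.intro _ rfl
    obtain ⟨y, hy⟩ := (Int.pow_dvd_pow_iff two_ne_zero).mp h2
    have h3 : y ^ 2 * (sa * sb) = wa * wb := by
      have h4 : (((p : ℤ) ^ (s + 1)) ^ 2) ≠ 0 := by positivity
      refine mul_left_cancel₀ h4 ?_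
      rw [← h1, hy]
      ring
    have h4 : jacobiSym (wa * wb) p = -1 := by
      have h5 : ((wa * wb : ℤ) : ZMod p) = (((m : ℤ) ^ 2 * (fq p a * fq p b) : ℤ) : ZMod p) := by
        rw [← ZMod.intCast_zmod_eq_zero_iff_dvd] at ha3 hb3
        push_cast at ha3 hb3 ⊢
        have h6 : (wa : ZMod p) = m * fq p a := by linear_combination ha3
        have h7 : (wb : ZMod p) = m * fq p b := by linear_combination hb3
        rw [h6, h7]
        ring
      rw [jac_eq, h5, ← jac_eq, jacobiSym.mul_left, jacobiSym.pow_left, jacobiSym.mul_left,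
        ← ha.2, ← hb.2, h]
      have h8 : jacobiSym (m : ℤ) p ^ 2 = 1 := by
        refine jacobiSym.sq_one ?_
        rw [Int.gcd_natCast_natCast]
        exact ((Nat.Prime.coprime_iff_not_dvd hp.out).mpr hm).symm
      rw [h8]
      norm_num
    rw [← h3, jacobiSym.mul_left, hss, jacobiSym.pow_left] at h4
    nlinarith [sq_nonneg (jacobiSym y p)]

end prime

end Pool.Agent.Cohn2
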