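import Mathlib
import Pool.Agent.PTB.Out

set_option autoImplicit false

/-!
# Cohn2 / Supply

Many primes `p = 3 mod 4` such that all prime factors of `p - 1` are at most `N^(3/5)`.
-/

namespace Pool.Agent.Cohn2

open Finset Filter Pool.Agent.MT

/-- the weight -/
noncomputable def wt (x : ℝ) : ℝ :=
  Real.smoothTransition (8 * x - 1) * Real.smoothTransition (7 - 8 * x)

theorem wt_is : IsWt wt := by
  refine ⟨?_, ?_, ?_, ?_, ?_⟩
  · unfold wt
    refine ContDiff.mul ?_ ?_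
    · exact Real.smoothTransition.contDiff.comp ((contDiff_const.mul contDiff_id).sub contDiff_const)
    · exact Real.smoothTransition.contDiff.comp (contDiff_const.sub (contDiff_const.mul contDiff_id))
  · intro x
    exact mul_nonneg (Real.smoothTransition.nonneg _) (Real.smoothTransition.nonneg _)
  · intro x
    exact mul_le_one₀ (Real.smoothTransition.le_one _) (Real.smoothTransition.nonneg _)
      (Real.smoothTransition.le_one _)
  · intro x hx
    unfold wt at hx
    have h1 : Real.smoothTransition (8 * x - 1) ≠ 0 := left_ne_zero_of_mul hx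
    have h2 : Real.smoothTransition (7 - 8 * x) ≠ 0 := right_ne_zero_of_mul hx
    constructor
    · by_contra h
      exact h1 (Real.smoothTransition.zero_of_nonpos (by linarith [not_lt.1 h]))
    · by_contra h
      exact h2 (Real.smoothTransition.zero_of_nonpos (by linarith [not_lt.1 h]))
  · intro x h1 h2
    unfold wt
    rw [Real.smoothTransition.one_of_one_le (by linarith), Real.smoothTransition.one_of_one_le
      (by linarith), one_mul]

theorem wt_mass : 1 / 2 ≤ PT.mη wt := by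
  unfold PT.mη
  have hc : Continuous wt := wt_is.smooth.continuous
  have hi : ∀ a b : ℝ, IntervalIntegrable wt MeasureTheory.volume a b := fun a b =>
    hc.intervalIntegrable a b
  rw [← intervalIntegral.integral_add_adjacent_intervals (hi 0 (1 / 4)) (hi (1 / 4) 1),
    ← intervalIntegral.integral_add_adjacent_intervals (hi (1 / 4) (3 / 4)) (hi (3 / 4) 1)]
  have h1 : 0 ≤ ∫ t in (0 : ℝ)..(1 / 4), wt t :=
    intervalIntegral.integral_nonneg (by norm_num) fun t _ => wt_is.nonneg t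
  have h2 : 0 ≤ ∫ t in (3 / 4 : ℝ)..1, wt t :=
    intervalIntegral.integral_nonneg (by norm_num) fun t _ => wt_is.nonneg t
  have h3 : ∫ t in (1 / 4 : ℝ)..(3 / 4), wt t = 1 / 2 := by
    rw [intervalIntegral.integral_congr (g := fun _ => (1 : ℝ))]
    · norm_num
    · intro t ht
      rw [Set.uIcc_of_le (by norm_num)] at ht
      exact wt_is.one t ht.1 ht.2
  linarith

/-- the large primes -/
noncomputable def Fp (N : ℕ) : Finset ℕ :=
  (range (N + 1)).filter fun l => l.Prime ∧ (N : ℝ) ^ (2 / 5 : ℝ) < l ∧ (l : ℝ) ≤ (N : ℝ) ^ (9 / 20 : ℝ)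

/-- the primes belonging to `l` -/
def Tp (N l : ℕ) : Finset ℕ :=
  (range (N + 1)).filter fun p => p.Prime ∧ p % 4 = 3 ∧ p % l = 1

/-- the primes -/
noncomputable def Pp (N : ℕ) : Finset ℕ := (Fp N).biUnion (Tp N)

theorem card_Fp : ∀ᶠ N : ℕ in atTop, (N : ℝ) ^ (9 / 20 : ℝ) / (2 * Real.log N) ≤ (Fp N).card := by
  have hT : Tendsto (fun N : ℕ => (N : ℝ)) atTop atTop := tendsto_natCast_atTop_atTop
  have e1 : ∀ᶠ N : ℕ in atTop, 100 ≤ (N : ℝ) ^ (9 / 20 : ℝ) :=
    ((tendsto_rpow_atTop (by norm_num : (0 : ℝ) < 9 / 20)).comp hT).eventually_ge_atTop 100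
  have e2 : ∀ᶠ N : ℕ in atTop, 1 ≤ Real.log N :=
    (Real.tendsto_log_atTop.comp hT).eventually_ge_atTop 1
  have e3 : ∀ᶠ N : ℕ in atTop, Real.log N ≤ 1 / 100 * (N : ℝ) ^ (1 / 20 : ℝ) := by
    have h := (isLittleO_log_rpow_atTop (by norm_num : (0 : ℝ) < 1 / 20)).bound
      (by norm_num : (0 : ℝ) < 1 / 100)
    filter_upwards [hT.eventually h, e2] with N h1 h2
    rw [Real.norm_of_nonneg (by linarith), Real.norm_of_nonneg (by positivity)] at h1
    exact h1
  filter_upwards [e1, e2, e3, eventually_ge_atTop 2] with N h1 h2 h3 hN2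
  have hN : (2 : ℝ) ≤ N := by exact_mod_cast hN2
  have hN0 : (0 : ℝ) < N := by linarith
  obtain ⟨H, hH⟩ : ∃ H : ℝ, H = (N : ℝ) ^ (9 / 20 : ℝ) := ⟨_, rfl⟩
  obtain ⟨n, hn⟩ : ∃ n : ℕ, n = ⌊H⌋₊ := ⟨_, rfl⟩
  have hH100 : 100 ≤ H := by rw [hH]; exact h1
  have hn1 : (n : ℝ) ≤ H := by rw [hn]; exact Nat.floor_le (by linarith)
  have hn2 : H < n + 1 := by rw [hn]; exact Nat.lt_floor_add_one H
  have hn99 : (99 : ℝ) ≤ n := by linarith
  have hnn : 99 ≤ n := by exact_mod_cast hn99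
  -- lower bound for pi(n)
  have hpi := Chebyshev.pi_ge n
  have hlogn : 0 < Real.log n := Real.log_pos (by linarith)
  have hlogn2 : Real.log n ≤ 9 / 20 * Real.log N := by
    calc Real.log n ≤ Real.log H := Real.log_le_log (by linarith) hn1
      _ = 9 / 20 * Real.log N := by rw [hH, Real.log_rpow hN0]
  have hl2 : (0.69 : ℝ) < Real.log 2 := by linarith [Real.log_two_gt_d9]
  have hlog1 : Real.log (n + 1) ≤ 1 / 100 * n + 4 := by
    have hx : Real.log ((n + 1 : ℝ) / 100) ≤ (n + 1 : ℝ) / 100 - 1 :=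
      Real.log_le_sub_one_of_pos (by positivity)
    rw [Real.log_div (by positivity) (by norm_num)] at hx
    have h100 : Real.log 100 < 4.7 := by
      have : Real.log 100 = 2 * Real.log 10 := by
        rw [show (100 : ℝ) = 10 ^ 2 by norm_num, Real.log_pow]
        norm_num
      rw [this]
      have h10 : Real.log 10 < 2.35 := by
        have : Real.log 10 = Real.log 2 + Real.log 5 := by
          rw [← Real.log_mul (by norm_num) (by norm_num)]
          norm_num
        rw [this]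
        have h5 : Real.log 5 < 1.65 := by
          rw [Real.log_lt_iff_lt_exp (by norm_num)]
          have he := Real.exp_one_gt_d9
          have : Real.exp (1.65) = Real.exp 1 * Real.exp 0.65 := by
            rw [← Real.exp_add]; norm_num
          rw [this]
          have h62 : 1 + 0.65 + 0.65 ^ 2 / 2 ≤ Real.exp (0.65 : ℝ) := by
            have := Real.quadratic_le_exp_of_nonneg (by norm_num : (0 : ℝ) ≤ 0.65)
            linarith
          nlinarith
        linarith [Real.log_two_lt_d9]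
      linarith
    linarith
  have hpi2 : H / Real.log N ≤ (Nat.primeCounting n : ℝ) := by
    refine le_trans ?_ hpi
    rw [div_le_div_iff₀ (by linarith) hlogn]
    have h5 : 0.45 * H ≤ n * Real.log 2 - Real.log (n + 1) := by nlinarith
    calc H * Real.log n ≤ H * (9 / 20 * Real.log N) := by
          refine mul_le_mul_of_nonneg_left hlogn2 (by linarith)
      _ = (0.45 * H) * Real.log N := by ring
      _ ≤ (n * Real.log 2 - Real.log (n + 1)) * Real.log N :=
          mul_le_mul_of_nonneg_right h5 (by linarith)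
  -- the small primes
  obtain ⟨lo, hlo⟩ : ∃ lo : ℝ, lo = (N : ℝ) ^ (2 / 5 : ℝ) := ⟨_, rfl⟩
  have hlo1 : 1 ≤ lo := by rw [hlo]; exact Real.one_le_rpow (by linarith) (by norm_num)
  have hlH : lo * (N : ℝ) ^ (1 / 20 : ℝ) = H := by
    rw [hlo, hH, ← Real.rpow_add hN0]
    norm_num
  have hsm : lo + 1 ≤ H / (2 * Real.log N) := by
    rw [le_div_iff₀ (by linarith)]
    rw [← hlH]
    nlinarith
  have hHN : H ≤ N := by
    rw [hH]
    calc (N : ℝ) ^ (9 / 20 : ℝ) ≤ (N : ℝ) ^ (1 : ℝ) :=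
          Real.rpow_le_rpow_of_exponent_le (by linarith) (by norm_num)
      _ = N := Real.rpow_one _
  have hnN : n ≤ N := by exact_mod_cast hn1.trans hHN
  have hsub : (range (n + 1)).filter Nat.Prime ⊆ Fp N ∪ range (⌊lo⌋₊ + 1) := by
    intro p hp
    rw [mem_filter, mem_range] at hp
    rw [mem_union]
    by_cases hpl : (p : ℝ) ≤ lo
    · right
      rw [mem_range]
      have := Nat.le_floor hpl
      omega
    · left
      unfold Fp
      rw [mem_filter, mem_range]
      refine ⟨by omega, hp.2, by rw [← hlo]; exact not_le.1 hpl, ?_⟩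
      rw [← hH]
      refine le_trans ?_ hn1
      exact_mod_cast (by omega : p ≤ n)
  have hcard := card_le_card hsub
  have hcu := card_union_le (Fp N) (range (⌊lo⌋₊ + 1))
  have hpc : Nat.primeCounting n = ((range (n + 1)).filter Nat.Prime).card := by
    unfold Nat.primeCounting Nat.primeCounting'
    rw [Nat.count_eq_card_filter_range]
  rw [card_range] at hcu
  have h6 : Nat.primeCounting n ≤ (Fp N).card + (⌊lo⌋₊ + 1) := by omega
  have h7 : (Nat.primeCounting n : ℝ) ≤ (Fp N).card + (⌊lo⌋₊ + 1) := by exact_mod_cast h6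
  have h8 : (⌊lo⌋₊ : ℝ) ≤ lo := Nat.floor_le (by linarith)
  have h9 : H / Real.log N = H / (2 * Real.log N) + H / (2 * Real.log N) := by
    field_simp
    norm_num
  rw [← hH]
  linarith

theorem bP_le {N m : ℕ} (hN : 2 ≤ N) (hm : m ≤ N) :
    PTB.bP N m * wt ((m : ℝ) / N) ≤ if m.Prime then 1 else 0 := by
  unfold PTB.bP
  split_ifs with h
  · have hN1 : (1 : ℝ) < N := by exact_mod_cast (by omega : 1 < N)
    have hL : 0 < Real.log N := Real.log_pos hN1
    have hm0 : (0 : ℝ) < m := by exact_mod_cast h.pos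
    have h1 : Real.log m / Real.log N ≤ 1 := by
      rw [div_le_one hL]
      exact Real.log_le_log hm0 (by exact_mod_cast hm)
    have h0 : 0 ≤ Real.log m / Real.log N :=
      div_nonneg (Real.log_nonneg (by exact_mod_cast h.one_lt.le)) hL.le
    exact mul_le_one₀ h1 (wt_is.nonneg _) (wt_is.le_one _)
  · simp

theorem Tp_sum {N l c : ℕ} (hN : 2 ≤ N) (hc4 : c % 4 = 3) (hcl : c % l = 1) :
    ∑ m ∈ (range (N + 1)).filter (fun m => m % (4 * l) = c % (4 * l)),
      PTB.bP N m * wt ((m : ℝ) / N) ≤ (Tp N l).card := by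
  calc ∑ m ∈ (range (N + 1)).filter (fun m => m % (4 * l) = c % (4 * l)),
      PTB.bP N m * wt ((m : ℝ) / N)
      ≤ ∑ m ∈ (range (N + 1)).filter (fun m => m % (4 * l) = c % (4 * l)),
        (if m.Prime then (1 : ℝ) else 0) := by
        refine sum_le_sum fun m hm => ?_
        rw [mem_filter, mem_range] at hm
        exact bP_le hN (by omega)
    _ = (((range (N + 1)).filter (fun m => m % (4 * l) = c % (4 * l))).filter Nat.Prime).card := by
        rw [sum_boole]
    _ ≤ (Tp N l).card := by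
        refine Nat.cast_le.2 (card_le_card ?_)
        intro m hm
        rw [mem_filter, mem_filter] at hm
        unfold Tp
        rw [mem_filter]
        refine ⟨hm.1.1, hm.2, ?_, ?_⟩
        · rw [← Nat.mod_mod_of_dvd m (dvd_mul_right 4 l), hm.1.2, Nat.mod_mod_of_dvd _
            (dvd_mul_right 4 l), hc4]
        · rw [← Nat.mod_mod_of_dvd m (dvd_mul_left l 4), hm.1.2, Nat.mod_mod_of_dvd _
            (dvd_mul_left l 4), hcl]

/-- each prime is counted at most twice -/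
theorem two_factors {N p : ℕ} (hN : 2 ≤ N) (hp : p ≤ N) (h2 : 2 ≤ p) :
    ((Fp N).filter fun l => p % l = 1).card ≤ 2 := by
  by_contra hcon
  rw [not_le] at hcon
  have hN1 : (1 : ℝ) < N := by exact_mod_cast (by omega : 1 < N)
  obtain ⟨S, hS⟩ : ∃ S, S = (Fp N).filter fun l => p % l = 1 := ⟨_, rfl⟩
  rw [← hS] at hcon
  have hmem : ∀ l ∈ S, l.Prime ∧ (N : ℝ) ^ (2 / 5 : ℝ) < l ∧ l ∣ p - 1 := by
    intro l hl
    rw [hS, mem_filter] at hl
    unfold Fp at hl
    rw [mem_filter] at hl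
    refine ⟨hl.1.2.1, hl.1.2.2.1, ?_⟩
    rw [← Nat.modEq_iff_dvd' (by omega)]
    have h1 : 1 % l = 1 := Nat.mod_eq_of_lt hl.1.2.1.one_lt
    exact (show 1 % l = p % l by rw [h1, hl.2])
  have hdvd : ∏ l ∈ S, l ∣ p - 1 :=
    Finset.prod_primes_dvd _ (fun l hl => (hmem l hl).1.prime) fun l hl => (hmem l hl).2.2
  have hle : ∏ l ∈ S, l ≤ p - 1 := Nat.le_of_dvd (by omega) hdvd
  have h1 : ((N : ℝ) ^ (2 / 5 : ℝ)) ^ S.card ≤ ∏ l ∈ S, (l : ℝ) := by
    rw [← prod_const]
    exact prod_le_prod (fun _ _ => by positivity) fun l hl => (hmem l hl).2.1.le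
  have h2' : (∏ l ∈ S, (l : ℝ)) ≤ N := by
    have : ((∏ l ∈ S, l : ℕ) : ℝ) ≤ N := by exact_mod_cast (by omega : ∏ l ∈ S, l ≤ N)
    rwa [Nat.cast_prod] at this
  have h3 : (N : ℝ) ^ (6 / 5 : ℝ) ≤ ((N : ℝ) ^ (2 / 5 : ℝ)) ^ S.card := by
    rw [← Real.rpow_natCast, ← Real.rpow_mul (by linarith)]
    refine Real.rpow_le_rpow_of_exponent_le hN1.le ?_
    have : (3 : ℝ) ≤ S.card := by exact_mod_cast hcon
    linarith
  have h4 : (N : ℝ) < (N : ℝ) ^ (6 / 5 : ℝ) := by
    calc (N : ℝ) = (N : ℝ) ^ (1 : ℝ) := (Real.rpow_one _).symm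
      _ < (N : ℝ) ^ (6 / 5 : ℝ) := Real.rpow_lt_rpow_of_exponent_lt hN1 (by norm_num)
  linarith

theorem card_Pp {N : ℕ} (hN : 2 ≤ N) : ∑ l ∈ Fp N, (Tp N l).card ≤ 2 * (Pp N).card := by
  have h1 : ∀ l ∈ Fp N, (Tp N l).card = ∑ p ∈ Pp N, if p % l = 1 then 1 else 0 := by
    intro l hl
    have e : Tp N l = (Pp N).filter fun p => p % l = 1 := by
      ext p
      unfold Pp Tp
      simp only [mem_filter, mem_biUnion]
      constructor
      · rintro ⟨h1, h2, h3, h4⟩
        exact ⟨⟨l, hl, h1, h2, h3, h4⟩, h4⟩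
      · rintro ⟨⟨l', hl', h1, h2, h3, h4⟩, h5⟩
        exact ⟨h1, h2, h3, h5⟩
    rw [e, sum_boole]
    simp
  rw [sum_congr rfl h1, sum_comm]
  calc ∑ p ∈ Pp N, ∑ l ∈ Fp N, (if p % l = 1 then 1 else 0) ≤ ∑ p ∈ Pp N, 2 := by
        refine sum_le_sum fun p hp => ?_
        rw [sum_boole]
        unfold Pp Tp at hp
        simp only [mem_biUnion, mem_filter, mem_range] at hp
        obtain ⟨l, -, h1, h2, -⟩ := hp
        simpa using two_factors hN (by omega) h2.two_le
    _ = 2 * (Pp N).card := by rw [sum_const, smul_eq_mul, mul_comm]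

theorem Pp_prop {N p : ℕ} (hN : 2 ≤ N) (hp : p ∈ Pp N) : p.Prime ∧ p % 4 = 3 ∧ p ≤ N ∧
    ∃ l m : ℕ, p - 1 = l * m ∧ (l : ℝ) ≤ (N : ℝ) ^ (3 / 5 : ℝ) ∧ (m : ℝ) ≤ (N : ℝ) ^ (3 / 5 : ℝ) := by
  have hN1 : (1 : ℝ) < N := by exact_mod_cast (by omega : 1 < N)
  unfold Pp Tp Fp at hp
  simp only [mem_biUnion, mem_filter, mem_range] at hp
  obtain ⟨l, ⟨-, hl1, hl2, hl3⟩, h1, h2, h3, h4⟩ := hp
  refine ⟨h2, h3, by omega, l, (p - 1) / l, ?_, ?_, ?_⟩
  · have hd : l ∣ p - 1 := by
      rw [← Nat.modEq_iff_dvd' h2.one_lt.le]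
      exact (show 1 % l = p % l by rw [Nat.mod_eq_of_lt hl1.one_lt, h4])
    exact (Nat.mul_div_cancel' hd).symm
  · exact hl3.trans (Real.rpow_le_rpow_of_exponent_le hN1.le (by norm_num))
  · have hl0 : (0 : ℝ) < l := by exact_mod_cast hl1.pos
    calc (((p - 1) / l : ℕ) : ℝ) ≤ ((p - 1 : ℕ) : ℝ) / l := Nat.cast_div_le
      _ ≤ N / l := by
          refine div_le_div_of_nonneg_right ?_ hl0.le
          exact_mod_cast (by omega : p - 1 ≤ N)
      _ ≤ N / (N : ℝ) ^ (2 / 5 : ℝ) :=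
          div_le_div_of_nonneg_left (by linarith) (by positivity) hl2.le
      _ = (N : ℝ) ^ (3 / 5 : ℝ) := by
          rw [div_eq_iff (by positivity), ← Real.rpow_add (by linarith)]
          norm_num

theorem supply : ∀ᶠ N : ℕ in atTop, N / (128 * Real.log N ^ 2) ≤ (Pp N).card := by
  have hT : Tendsto (fun N : ℕ => (N : ℝ)) atTop atTop := tendsto_natCast_atTop_atTop
  have e1 : ∀ᶠ N : ℕ in atTop, 4 ≤ (N : ℝ) ^ (1 / 50 : ℝ) :=
    ((tendsto_rpow_atTop (by norm_num : (0 : ℝ) < 1 / 50)).comp hT).eventually_ge_atTop 4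
  have e2 : ∀ᶠ N : ℕ in atTop, 64 ≤ Real.log N :=
    (Real.tendsto_log_atTop.comp hT).eventually_ge_atTop 64
  have e4 : ∀ᶠ N : ℕ in atTop, 4 < (N : ℝ) ^ (2 / 5 : ℝ) :=
    ((tendsto_rpow_atTop (by norm_num : (0 : ℝ) < 2 / 5)).comp hT).eventually_gt_atTop 4
  filter_upwards [card_Fp, PTB.out_prime wt wt_is (47 / 100) (by norm_num) (by norm_num) 3 1,
    PTB.out_massP wt wt_is (1 / 4) (by norm_num), e1, e2, e4, eventually_ge_atTop 2] with N
    hF hBV hM h1 h2 h4 hN2
  have hN : (2 : ℝ) ≤ N := by exact_mod_cast hN2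
  have hN0 : (0 : ℝ) < N := by linarith
  obtain ⟨L, hL⟩ : ∃ L : ℝ, L = Real.log N := ⟨_, rfl⟩
  obtain ⟨H, hH⟩ : ∃ H : ℝ, H = (N : ℝ) ^ (9 / 20 : ℝ) := ⟨_, rfl⟩
  rw [← hL] at h2 hM hF ⊢
  rw [← hH] at hF
  have hL0 : 0 < L := by linarith
  have hH0 : 0 < H := by rw [hH]; positivity
  obtain ⟨E, hE0, hE1, hE2⟩ := hBV
  obtain ⟨B, hB⟩ : ∃ B : ℝ, B = PT.B0 wt N (PTB.bP N) := ⟨_, rfl⟩
  rw [← hB] at hM hE1
  rw [← hL] at hE2
  have hB1 : N / (4 * L) ≤ B := by
    refine le_trans ?_ hM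
    have hm := wt_mass
    have : N / (4 * L) = 1 / 2 * N / L - 1 / 4 * N / L := by
      field_simp
      norm_num
    rw [this]
    have h3 : 1 / 2 * (N : ℝ) / L ≤ PT.mη wt * N / L := by gcongr
    linarith
  have hB0 : 0 ≤ B := le_trans (by positivity) hB1
  -- the moduli
  have hq : ∀ l ∈ Fp N, 1 ≤ 4 * l ∧ ((4 * l : ℕ) : ℝ) ≤ (N : ℝ) ^ (47 / 100 : ℝ) := by
    intro l hl
    unfold Fp at hl
    rw [mem_filter] at hl
    refine ⟨by have := hl.2.1.pos; omega, ?_⟩
    push_cast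
    calc 4 * (l : ℝ) ≤ (N : ℝ) ^ (1 / 50 : ℝ) * (N : ℝ) ^ (9 / 20 : ℝ) :=
          mul_le_mul h1 hl.2.2.2 (by positivity) (by positivity)
      _ = (N : ℝ) ^ (47 / 100 : ℝ) := by
          rw [← Real.rpow_add hN0]
          norm_num
  have hlow : ∀ l ∈ Fp N, B / (2 * H) - E (4 * l) ≤ (Tp N l).card := by
    intro l hl
    obtain ⟨hq1, hq2⟩ := hq l hl
    unfold Fp at hl
    rw [mem_filter] at hl
    have hl1 := hl.2.1
    have hl4 : (4 : ℝ) < l := lt_trans h4 hl.2.2.1
    have hl4' : 4 < l := by exact_mod_cast hl4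
    have hcop : Nat.Coprime 4 l := by
      rw [show 4 = 2 ^ 2 by norm_num]
      refine Nat.Coprime.pow_left 2 ?_
      exact (Nat.coprime_primes Nat.prime_two hl1).2 (by omega)
    obtain ⟨c, hc4, hcl⟩ := Nat.chineseRemainder hcop 3 1
    have hc4' : c % 4 = 3 := hc4
    have hcl' : c % l = 1 := by
      have : c % l = 1 % l := hcl
      rw [this, Nat.mod_eq_of_lt hl1.one_lt]
    have hcc : c.Coprime (4 * l) := by
      refine Nat.Coprime.mul_right ?_ ?_
      · rw [show 4 = 2 ^ 2 by norm_num]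
        refine Nat.Coprime.pow_right 2 ?_
        rw [Nat.coprime_two_right]
        rw [Nat.odd_iff]
        omega
      · rw [Nat.coprime_comm, Nat.Prime.coprime_iff_not_dvd hl1]
        intro hd
        rw [Nat.dvd_iff_mod_eq_zero] at hd
        omega
    have h5 := hE1 (4 * l) c hq1 hq2 hcc
    have h6 := Tp_sum hN2 hc4' hcl'
    have h7 := (abs_le.1 h5).1
    have h8 : ((4 * l).totient : ℝ) ≤ 2 * H := by
      rw [Nat.totient_mul hcop, Nat.totient_prime hl1, show Nat.totient 4 = 2 from by decide]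
      push_cast
      have h9 : ((l - 1 : ℕ) : ℝ) ≤ l := by exact_mod_cast Nat.sub_le l 1
      have h10 : (l : ℝ) ≤ H := by rw [hH]; exact hl.2.2.2
      linarith
    have h9 : (0 : ℝ) < ((4 * l).totient : ℝ) := by
      exact_mod_cast Nat.totient_pos.2 (by omega)
    have h10 : B / (2 * H) ≤ B / ((4 * l).totient : ℝ) := div_le_div_of_nonneg_left hB0 h9 h8
    linarith
  have hsum := sum_le_sum hlow
  rw [sum_sub_distrib, sum_const, nsmul_eq_mul] at hsum
  have hEs : ∑ l ∈ Fp N, E (4 * l) ≤ N / L ^ 3 := by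
    refine le_trans ?_ hE2
    simp only [Nat.cast_one, one_pow, one_mul]
    have hinj : Set.InjOn (fun l : ℕ => 4 * l) (Fp N : Set ℕ) := by
      intro a _ b _ hab
      simpa using hab
    rw [← sum_image (f := fun q => E q) hinj]
    refine sum_le_sum_of_subset_of_nonneg ?_ fun q _ _ => hE0 q
    intro q hq'
    rw [mem_image] at hq'
    obtain ⟨l, hl, rfl⟩ := hq'
    obtain ⟨h5, h6⟩ := hq l hl
    rw [mem_filter, mem_Icc]
    refine ⟨⟨h5, ?_⟩, h6⟩
    have : ((4 * l : ℕ) : ℝ) ≤ N := by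
      refine h6.trans ?_
      calc (N : ℝ) ^ (47 / 100 : ℝ) ≤ (N : ℝ) ^ (1 : ℝ) :=
            Real.rpow_le_rpow_of_exponent_le (by linarith) (by norm_num)
        _ = N := Real.rpow_one _
    exact_mod_cast this
  have hcp := card_Pp hN2
  have hcp' : ∑ l ∈ Fp N, ((Tp N l).card : ℝ) ≤ 2 * (Pp N).card := by exact_mod_cast hcp
  have h11 : (N : ℝ) / (16 * L ^ 2) ≤ (Fp N).card * (B / (2 * H)) := by
    calc (N : ℝ) / (16 * L ^ 2) = H / (2 * L) * (N / (4 * L) / (2 * H)) := by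
          field_simp
          norm_num
      _ ≤ (Fp N).card * (B / (2 * H)) := by gcongr
  have h12 : (N : ℝ) / L ^ 3 ≤ N / (64 * L ^ 2) := by
    refine div_le_div_of_nonneg_left (by linarith) (by positivity) ?_
    nlinarith [pow_pos hL0 2]
  have h13 : (N : ℝ) / (16 * L ^ 2) = 4 * (N / (64 * L ^ 2)) := by
    field_simp
    norm_num
  have h14 : (N : ℝ) / (64 * L ^ 2) = 2 * (N / (128 * L ^ 2)) := by
    field_simp
    norm_num
  have h15 : 0 < (N : ℝ) / (128 * L ^ 2) := by positivity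
  linarith

end Pool.Agent.Cohn2
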