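import Mathlib
import Pool.Agent.Cohn2.Count
import Pool.Agent.Cohn2.Supply

set_option autoImplicit false

/-!
# Cohn2 / Main

For all but `X^(23/12)` pairs `2 <= a, b <= X` there is no solution for any exponent.
-/

namespace Pool.Agent.Cohn2

open Finset Filter

/-- the final estimate -/
theorem numeric {X L l N k g M : ℝ} (hX : 1 ≤ X) (hLX : L = Real.log X) (hl : l = Real.log L)
    (hL1 : 1 < L) (hN0 : 0 < N) (hN1 : Real.log N ≤ 8 / 5 * l) (hN2 : l ≤ Real.log N)
    (hM0 : 0 < M) (hM : Real.log M ≤ 1 / 10000 * L)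
    (hk1 : 4 * k * Real.log N ≤ 9 / 10 * L) (hk2 : 9 / 40 * L ≤ (k + 1) * Real.log N)
    (hk0 : 0 ≤ k) (hg : 6561 * L ^ (598 / 1000 : ℝ) ≤ g) (hl2 : 20000 ≤ l)
    (hl3 : l + 20 ≤ 1 / 2000 * L) :
    M * ((X + 1) ^ 2 * (6561 / g) ^ k + 6561 ^ k * (2 * (X + 1) * N ^ (4 * k))) ≤
      X ^ (23 / 12 : ℝ) := by
  have hL0 : 0 < L := by linarith
  have hX0 : 0 < X := by linarith
  have hXe : X = Real.exp L := by rw [hLX, Real.exp_log hX0]
  have hLe : L = Real.exp l := by rw [hl, Real.exp_log hL0]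
  have hMe : M ≤ Real.exp (1 / 10000 * L) := by
    rw [← Real.log_le_iff_le_exp hM0]
    exact hM
  have hX1 : X + 1 ≤ Real.exp (1 + L) := by
    rw [Real.exp_add, ← hXe]
    have : 2 ≤ Real.exp 1 := by linarith [Real.exp_one_gt_d9]
    nlinarith
  have hLp : (0 : ℝ) < L ^ (598 / 1000 : ℝ) := by positivity
  have hg0 : 0 < g := by linarith
  have h65 : (6561 : ℝ) ≤ Real.exp 9 := by
    have h1 : (2.7 : ℝ) ≤ Real.exp 1 := by linarith [Real.exp_one_gt_d9]
    have h2 : Real.exp 9 = Real.exp 1 ^ (9 : ℕ) := by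
      rw [← Real.exp_nat_mul]
      norm_num
    rw [h2]
    calc (6561 : ℝ) ≤ 2.7 ^ (9 : ℕ) := by norm_num
      _ ≤ Real.exp 1 ^ (9 : ℕ) := by gcongr
  -- k against L / l
  have hk3 : 9 / 64 * L - l ≤ k * l := by
    have h1 : 9 / 40 * L ≤ (k + 1) * (8 / 5 * l) := hk2.trans
      (mul_le_mul_of_nonneg_left hN1 (by linarith))
    linarith
  have hk4 : 20000 * k ≤ L := by
    have h1 : k * 20000 ≤ k * Real.log N := mul_le_mul_of_nonneg_left (by linarith) hk0
    linarith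
  have hT1 : (6561 / g) ^ k ≤ Real.exp (-(598 / 1000 * (9 / 64 * L - l))) := by
    have h1 : 6561 / g ≤ Real.exp (-(598 / 1000 * l)) := by
      rw [div_le_iff₀ hg0, Real.exp_neg]
      rw [inv_mul_eq_div, le_div_iff₀ (Real.exp_pos _)]
      have h2 : Real.exp (598 / 1000 * l) = L ^ (598 / 1000 : ℝ) := by
        rw [hLe, ← Real.exp_mul]
        ring_nf
      rw [h2]
      exact hg
    calc (6561 / g) ^ k ≤ Real.exp (-(598 / 1000 * l)) ^ k :=
          Real.rpow_le_rpow (by positivity) h1 hk0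
      _ = Real.exp (-(598 / 1000 * l) * k) := by rw [← Real.exp_mul]
      _ ≤ Real.exp (-(598 / 1000 * (9 / 64 * L - l))) := by
          rw [Real.exp_le_exp]
          linarith
  have hT2 : (6561 : ℝ) ^ k ≤ Real.exp (9 * k) := by
    calc (6561 : ℝ) ^ k ≤ Real.exp 9 ^ k := Real.rpow_le_rpow (by norm_num) h65 hk0
      _ = Real.exp (9 * k) := by rw [← Real.exp_mul]
  have hT3 : N ^ (4 * k) ≤ Real.exp (9 / 10 * L) := by
    rw [Real.rpow_def_of_pos hN0, Real.exp_le_exp]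
    linarith
  have hA : M * ((X + 1) ^ 2 * (6561 / g) ^ k) ≤ Real.exp (-1) * Real.exp (23 / 12 * L) := by
    calc M * ((X + 1) ^ 2 * (6561 / g) ^ k) ≤ Real.exp (1 / 10000 * L) *
          (Real.exp (1 + L) ^ 2 * Real.exp (-(598 / 1000 * (9 / 64 * L - l)))) := by gcongr
      _ = Real.exp (1 / 10000 * L + (2 * (1 + L) + -(598 / 1000 * (9 / 64 * L - l)))) := by
          simp only [sq, ← Real.exp_add]
          congr 1
          ring
      _ ≤ Real.exp (-1 + 23 / 12 * L) := by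
          rw [Real.exp_le_exp]
          linarith
      _ = Real.exp (-1) * Real.exp (23 / 12 * L) := Real.exp_add _ _
  have hB : M * (6561 ^ k * (2 * (X + 1) * N ^ (4 * k))) ≤
      Real.exp (-1) * Real.exp (23 / 12 * L) := by
    have h2 : (2 : ℝ) ≤ Real.exp 1 := by linarith [Real.exp_one_gt_d9]
    calc M * (6561 ^ k * (2 * (X + 1) * N ^ (4 * k))) ≤ Real.exp (1 / 10000 * L) *
          (Real.exp (9 * k) * (Real.exp 1 * Real.exp (1 + L) * Real.exp (9 / 10 * L))) := by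
          gcongr
      _ = Real.exp (1 / 10000 * L + (9 * k + (1 + (1 + L) + 9 / 10 * L))) := by
          simp only [← Real.exp_add]
      _ ≤ Real.exp (-1 + 23 / 12 * L) := by
          rw [Real.exp_le_exp]
          linarith
      _ = Real.exp (-1) * Real.exp (23 / 12 * L) := Real.exp_add _ _
  have hXp : X ^ (23 / 12 : ℝ) = Real.exp (23 / 12 * L) := by
    rw [hXe, ← Real.exp_mul]
    ring_nf
  have he : Real.exp (-1) ≤ 1 / 2 := by
    rw [Real.exp_neg]
    have h2 : (2 : ℝ) ≤ Real.exp 1 := by linarith [Real.exp_one_gt_d9]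
    rw [inv_le_comm₀ (Real.exp_pos _) (by norm_num)]
    norm_num
    exact h2
  rw [hXp, mul_add]
  have := Real.exp_pos (23 / 12 * L)
  nlinarith

/-- `(log X)^(8/5)` -/
noncomputable def NN (X : ℕ) : ℕ := ⌊(Real.log X) ^ (8 / 5 : ℝ)⌋₊

theorem log_le_small (c ε : ℝ) (hc : 0 < c) (hε : 0 < ε) :
    ∀ᶠ X : ℕ in atTop, c * Real.log (Real.log X) ≤ (Real.log X) ^ ε := by
  have hT : Tendsto (fun X : ℕ => Real.log X) atTop atTop :=
    Real.tendsto_log_atTop.comp tendsto_natCast_atTop_atTop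
  have h := (isLittleO_log_rpow_atTop hε).bound (by positivity : (0 : ℝ) < 1 / c)
  filter_upwards [hT.eventually h, hT.eventually_ge_atTop 1] with X h1 h2
  have h3 : 0 ≤ Real.log (Real.log X) := Real.log_nonneg h2
  rw [Real.norm_of_nonneg h3, Real.norm_of_nonneg (by positivity)] at h1
  rw [one_div, inv_mul_eq_div, le_div_iff₀ hc] at h1
  linarith

open Classical in
/-- almost all pairs have no solution -/
theorem almost_all : ∀ᶠ X : ℕ in atTop,
    (((range (X + 1) ×ˢ range (X + 1)).filter fun x => IsSol x.1 x.2).card : ℝ) ≤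
      (X : ℝ) ^ (23 / 12 : ℝ) := by
  have hT : Tendsto (fun X : ℕ => Real.log X) atTop atTop :=
    Real.tendsto_log_atTop.comp tendsto_natCast_atTop_atTop
  have hNN : Tendsto NN atTop atTop :=
    tendsto_nat_floor_atTop.comp ((tendsto_rpow_atTop (by norm_num : (0 : ℝ) < 8 / 5)).comp hT)
  have hTT : Tendsto (fun X : ℕ => Real.log (Real.log X)) atTop atTop :=
    Real.tendsto_log_atTop.comp hT
  filter_upwards [hNN.eventually supply, hNN.eventually_ge_atTop 2, hTT.eventually_ge_atTop 20000,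
    hT.eventually_ge_atTop 1000000, log_le_small 1312200 (1 / 500) (by norm_num) (by norm_num),
    log_le_small 32000 (1 / 25) (by norm_num) (by norm_num),
    log_le_small 4000 1 (by norm_num) (by norm_num), eventually_ge_atTop 2] with X hS hNN2 hl2 hLbig
    h500 h25 hll hX2
  obtain ⟨L, hL⟩ : ∃ L : ℝ, L = Real.log X := ⟨_, rfl⟩
  obtain ⟨l, hl⟩ : ∃ l : ℝ, l = Real.log L := ⟨_, rfl⟩
  rw [← hL] at hl2 hLbig h500 h25 hll
  rw [← hl] at hl2 h500 h25 hll
  rw [Real.rpow_one] at hll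
  have hL0 : 0 < L := by linarith
  have hL1 : 1 < L := by linarith
  have hl0 : 0 < l := by linarith
  obtain ⟨n, hn⟩ : ∃ n : ℕ, n = NN X := ⟨_, rfl⟩
  rw [← hn] at hS hNN2
  have hn2 : (2 : ℝ) ≤ n := by exact_mod_cast hNN2
  have hn0 : (0 : ℝ) < n := by linarith
  have hL85 : (0 : ℝ) < L ^ (8 / 5 : ℝ) := by positivity
  have hnu : (n : ℝ) ≤ L ^ (8 / 5 : ℝ) := by
    rw [hn, hL]
    exact Nat.floor_le (by rw [← hL]; positivity)
  have hnl : L ^ (8 / 5 : ℝ) < n + 1 := by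
    rw [hn, hL]
    exact Nat.lt_floor_add_one _
  have h35 : (2 : ℝ) ≤ L ^ (3 / 5 : ℝ) := by
    calc (2 : ℝ) ≤ (32 : ℝ) ^ (3 / 5 : ℝ) := by
          rw [show (32 : ℝ) = 2 ^ (5 : ℝ) by norm_num, ← Real.rpow_mul (by norm_num)]
          norm_num
      _ ≤ L ^ (3 / 5 : ℝ) := Real.rpow_le_rpow (by norm_num) (by linarith) (by norm_num)
  have hL85' : L ^ (8 / 5 : ℝ) = L * L ^ (3 / 5 : ℝ) := by
    rw [show (8 / 5 : ℝ) = 1 + 3 / 5 by norm_num, Real.rpow_add hL0, Real.rpow_one]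
  have hLn : L ≤ n := by nlinarith
  have hlogn1 : Real.log n ≤ 8 / 5 * l := by
    calc Real.log n ≤ Real.log (L ^ (8 / 5 : ℝ)) := Real.log_le_log hn0 hnu
      _ = 8 / 5 * l := by rw [Real.log_rpow hL0, hl]
  have hlogn2 : l ≤ Real.log n := by
    rw [hl]
    exact Real.log_le_log hL0 hLn
  have hlogn0 : 0 < Real.log n := by linarith
  -- the number of groups
  obtain ⟨k, hk⟩ : ∃ k : ℕ, k = ⌊9 / 40 * L / Real.log n⌋₊ := ⟨_, rfl⟩
  have hku : (k : ℝ) ≤ 9 / 40 * L / Real.log n := by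
    rw [hk]
    exact Nat.floor_le (by positivity)
  have hkl : 9 / 40 * L / Real.log n < k + 1 := by
    rw [hk]
    exact Nat.lt_floor_add_one _
  rw [le_div_iff₀ hlogn0] at hku
  rw [div_lt_iff₀ hlogn0] at hkl
  have hk1 : (1 : ℝ) ≤ k := by
    have h1 : (k + 1 : ℝ) * Real.log n ≤ (k + 1) * (8 / 5 * l) :=
      mul_le_mul_of_nonneg_left hlogn1 (by positivity)
    have h2 : (2 : ℝ) * (8 / 5 * l) < (k + 1) * (8 / 5 * l) := by linarith
    have h3 := lt_of_mul_lt_mul_right h2 (by positivity)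
    linarith
  have hk1' : 0 < k := by
    have : (0 : ℝ) < k := by linarith
    exact_mod_cast this
  -- the size of the groups
  obtain ⟨g, hg⟩ : ∃ g : ℕ, g = (Pp n).card / k := ⟨_, rfl⟩
  have hkg : k * g ≤ (Pp n).card := by
    rw [hg]
    exact Nat.mul_div_le _ _
  have hgl : ((Pp n).card : ℝ) < k * (g + 1) := by
    have h1 : (Pp n).card < k * (g + 1) := by
      rw [hg]
      exact Nat.lt_mul_div_succ _ hk1'
    exact_mod_cast h1
  have h598 : L ^ (3 / 5 : ℝ) = L ^ (598 / 1000 : ℝ) * L ^ (1 / 500 : ℝ) := by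
    rw [← Real.rpow_add hL0]
    norm_num
  have hp598 : 1 ≤ L ^ (598 / 1000 : ℝ) := Real.one_le_rpow hL1.le (by norm_num)
  have hgg : 6561 * L ^ (598 / 1000 : ℝ) + 1 ≤ g + 1 := by
    obtain ⟨A, hA⟩ : ∃ A : ℝ, A = L ^ (598 / 1000 : ℝ) := ⟨_, rfl⟩
    obtain ⟨B, hB⟩ : ∃ B : ℝ, B = L ^ (1 / 500 : ℝ) := ⟨_, rfl⟩
    rw [← hA, ← hB] at h598
    rw [← hA] at hp598 ⊢
    rw [← hB] at h500
    have h1 : (n : ℝ) ≤ (Pp n).card * (128 * Real.log n ^ 2) := by
      rw [div_le_iff₀ (by positivity)] at hS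
      exact hS
    have h2 : (n : ℝ) ≤ k * (g + 1) * (128 * Real.log n ^ 2) :=
      h1.trans (mul_le_mul_of_nonneg_right hgl.le (by positivity))
    have h3 : (n : ℝ) ≤ (g + 1) * (29 * L * Real.log n) := by
      calc (n : ℝ) ≤ k * (g + 1) * (128 * Real.log n ^ 2) := h2
        _ = (g + 1) * (128 * Real.log n) * (k * Real.log n) := by ring
        _ ≤ (g + 1) * (128 * Real.log n) * (9 / 40 * L) := by gcongr
        _ = (g + 1) * (L * Real.log n) * (128 * (9 / 40)) := by ring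
        _ ≤ (g + 1) * (L * Real.log n) * 29 := by gcongr; norm_num
        _ = (g + 1) * (29 * L * Real.log n) := by ring
    have h4 : (n : ℝ) ≤ (g + 1) * (47 * L * l) := by
      calc (n : ℝ) ≤ (g + 1) * (29 * L * Real.log n) := h3
        _ ≤ (g + 1) * (29 * L * (8 / 5 * l)) := by gcongr
        _ = (g + 1) * (L * l) * (29 * (8 / 5)) := by ring
        _ ≤ (g + 1) * (L * l) * 47 := by gcongr; norm_num
        _ = (g + 1) * (47 * L * l) := by ring
    have h5 : L * (A * B) ≤ 2 * n := by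
      rw [← h598, ← hL85']
      linarith
    have h6 : L * (A * (1312200 * l)) ≤ L * (A * B) := by gcongr
    have h7 : (L * l) * (1312200 * A) ≤ (L * l) * (94 * (g + 1)) := by
      calc (L * l) * (1312200 * A) = L * (A * (1312200 * l)) := by ring
        _ ≤ 2 * n := h6.trans h5
        _ ≤ 2 * ((g + 1) * (47 * L * l)) := by linarith
        _ = (L * l) * (94 * (g + 1)) := by ring
    have h8 := le_of_mul_le_mul_left h7 (by positivity)
    linarith
  have hg0 : 0 < g := by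
    have : (0 : ℝ) < g := by linarith
    exact_mod_cast this
  -- the common multiple
  obtain ⟨Y, hY⟩ : ∃ Y : ℕ, Y = ⌊(n : ℝ) ^ (3 / 5 : ℝ)⌋₊ := ⟨_, rfl⟩
  have hYu : (Y : ℝ) ≤ (n : ℝ) ^ (3 / 5 : ℝ) := by
    rw [hY]
    exact Nat.floor_le (by positivity)
  have hdiv : ∀ p ∈ Pp n, p - 1 ∣ Y.factorial ^ 2 := by
    intro p hp
    obtain ⟨h1, -, -, a, b, hab, ha, hb⟩ := Pp_prop hNN2 hp
    have hp1 : 0 < p - 1 := by have := h1.two_le; omega
    rw [hab] at hp1 ⊢
    rw [sq]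
    have ha0 : 0 < a := Nat.pos_of_mul_pos_right hp1
    have hb0 : 0 < b := Nat.pos_of_mul_pos_left hp1
    have haY : a ≤ Y := by rw [hY]; exact Nat.le_floor ha
    have hbY : b ≤ Y := by rw [hY]; exact Nat.le_floor hb
    exact mul_dvd_mul (Nat.dvd_factorial ha0 haY) (Nat.dvd_factorial hb0 hbY)
  have hM0 : 0 < Y.factorial ^ 2 := by positivity
  have hlogM : Real.log ((Y.factorial ^ 2 : ℕ) : ℝ) ≤ 1 / 10000 * L := by
    have h1 : Real.log ((Y.factorial ^ 2 : ℕ) : ℝ) ≤ 2 * (Y * Real.log n) := by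
      push_cast
      rw [Real.log_pow]
      push_cast
      refine mul_le_mul_of_nonneg_left ?_ (by norm_num)
      rcases Nat.eq_zero_or_pos Y with h0 | h0
      · rw [h0]
        simp
      · have hYn : (Y : ℝ) ≤ n := by
          refine hYu.trans ?_
          calc (n : ℝ) ^ (3 / 5 : ℝ) ≤ (n : ℝ) ^ (1 : ℝ) :=
                Real.rpow_le_rpow_of_exponent_le (by linarith) (by norm_num)
            _ = n := Real.rpow_one _
        have hY0 : (0 : ℝ) < Y := by exact_mod_cast h0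
        calc Real.log (Y.factorial : ℝ) ≤ Real.log ((Y : ℝ) ^ Y) := by
              refine Real.log_le_log (by exact_mod_cast Y.factorial_pos) ?_
              exact_mod_cast Nat.factorial_le_pow Y
          _ = Y * Real.log Y := Real.log_pow _ _
          _ ≤ Y * Real.log n := by
              refine mul_le_mul_of_nonneg_left (Real.log_le_log hY0 hYn) hY0.le
    have h2 : (Y : ℝ) ≤ L ^ (24 / 25 : ℝ) := by
      refine hYu.trans ?_
      calc (n : ℝ) ^ (3 / 5 : ℝ) ≤ (L ^ (8 / 5 : ℝ)) ^ (3 / 5 : ℝ) :=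
            Real.rpow_le_rpow hn0.le hnu (by norm_num)
        _ = L ^ (24 / 25 : ℝ) := by
            rw [← Real.rpow_mul hL0.le]
            norm_num
    have h3 : L = L ^ (24 / 25 : ℝ) * L ^ (1 / 25 : ℝ) := by
      rw [← Real.rpow_add hL0]
      norm_num
    have h4 : 0 < L ^ (24 / 25 : ℝ) := by positivity
    have h5 : L ^ (24 / 25 : ℝ) * (32000 * l) ≤ L := by
      rw [h3]
      nth_rewrite 1 [← h3]
      exact mul_le_mul_of_nonneg_left h25 h4.le
    calc Real.log ((Y.factorial ^ 2 : ℕ) : ℝ) ≤ 2 * (Y * Real.log n) := h1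
      _ ≤ 2 * (L ^ (24 / 25 : ℝ) * (8 / 5 * l)) := by gcongr
      _ = 1 / 10000 * (L ^ (24 / 25 : ℝ) * (32000 * l)) := by ring
      _ ≤ 1 / 10000 * L := by gcongr
  have hfin := sol_bound (Pp n) k g n (Y.factorial ^ 2) (X + 1) hg0 hkg
    (fun p hp => ⟨(Pp_prop hNN2 hp).1, (Pp_prop hNN2 hp).2.1, (Pp_prop hNN2 hp).2.2.1⟩) hM0 hdiv
  have hnum := numeric (X := X) (L := L) (l := l) (N := n) (k := k) (g := g)
    (M := ((Y.factorial ^ 2 : ℕ) : ℝ)) (by exact_mod_cast (by omega : 1 ≤ X)) hL hl hL1 hn0 hlogn1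
    hlogn2 (by exact_mod_cast hM0) hlogM (by linarith) hkl.le (by positivity) (by linarith) hl2
    (by linarith)
  refine hfin.trans (le_trans (le_of_eq ?_) hnum)
  have e1 : (n : ℝ) ^ (4 * (k : ℝ)) = (n : ℝ) ^ (4 * k) := by
    rw [← Real.rpow_natCast]
    push_cast
    ring_nf
  rw [e1, Real.rpow_natCast, Real.rpow_natCast]
  push_cast
  ring

end Pool.Agent.Cohn2
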